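import Mathlib

set_option autoImplicit false

open scoped BigOperators Topology

namespace Pool.Agent.Work.MP_321bb7_mp

/-- `ϑ(x) = {x} (1 - {x})`, with `{x}` the fractional part. -/
noncomputable def vartheta (x : ℝ) : ℝ := Int.fract x * (1 - Int.fract x)

/-- The pairing of an integer vector with a real vector. -/
def pairing {r : ℕ} (w : Fin r → ℤ) (x : Fin r → ℝ) : ℝ := ∑ i, (w i : ℝ) * x i

/-- The torus character `x ↦ exp (2 π i ⟨w, x⟩)` of an integer vector `w`. -/
noncomputable def chr {r : ℕ} (w : Fin r → ℤ) (x : Fin r → ℝ) : ℂ :=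
  Complex.exp (2 * Real.pi * Complex.I * (pairing w x : ℝ))

/-- Complex `n × n` matrices. -/
abbrev Mat (n : ℕ) : Type := Matrix (Fin n) (Fin n) ℂ

/-- A compact connected semisimple Lie group with coordinates on a maximal torus.
`G` is a compact connected topological group with a faithful continuous matrix representation `ι`
(so it is a compact connected Lie group) and with finite centre (so it is semisimple).
`τ` gives linear coordinates `x ∈ ℝ^r` on the Lie algebra of a maximal torus: it is a continuous
homomorphism from `ℝ^r` to `G` which is trivial on `ℤ^r` (so that all weights are integer vectors),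
is injective near `0` (so that `r` is the dimension of its image), and whose image is its own
centraliser in `G` (so that its image is a maximal torus and `r` is the rank). -/
structure GaugeGroup where
  G : Type
  [instGroup : Group G]
  [instTop : TopologicalSpace G]
  [instTopGroup : IsTopologicalGroup G]
  [instCompact : CompactSpace G]
  [instConnected : ConnectedSpace G]
  n : ℕ
  ι : G →* Mat n
  ι_cont : Continuous ι
  ι_inj : Function.Injective ι
  finite_center : (Subgroup.center G : Set G).Finite
  r : ℕ
  τ : (Fin r → ℝ) → G
  τ_add : ∀ x y, τ (x + y) = τ x * τ y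
  τ_cont : Continuous τ
  τ_int : ∀ k : Fin r → ℤ, τ (fun i => (k i : ℝ)) = 1
  τ_discrete : ∀ᶠ x in 𝓝 (0 : Fin r → ℝ), τ x = 1 → x = 0
  τ_max : ∀ g : G, (∀ x, g * τ x = τ x * g) → g ∈ Set.range τ

namespace GaugeGroup

attribute [instance] GaugeGroup.instGroup GaugeGroup.instTop GaugeGroup.instTopGroup
  GaugeGroup.instCompact GaugeGroup.instConnected

variable (K : GaugeGroup)

/-- The set of all `X` with `exp (t X) ∈ ι(G)` for all real `t`: the Lie algebra of `ι(G)`. -/
def expSet : Set (Mat K.n) := {X | ∀ t : ℝ, ∃ g : K.G, K.ι g = NormedSpace.exp (t • X)}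

/-- The Lie algebra of `G` (the set `expSet` is a real vector space; we take the span so that it is
one by definition). -/
noncomputable def lieAlg : Submodule ℝ (Mat K.n) := Submodule.span ℝ K.expSet

/-- `dim G`, the real dimension of the Lie algebra. -/
noncomputable def dim : ℕ := Module.finrank ℝ K.lieAlg

/-- The complexified Lie algebra. -/
noncomputable def lieAlgC : Submodule ℂ (Mat K.n) := Submodule.span ℂ K.expSet

/-- The adjoint action `X ↦ ι(g) X ι(g)⁻¹`. -/
noncomputable def ad (g : K.G) : Module.End ℂ (Mat K.n) :=
  LinearMap.mulLeftRight ℂ (K.ι g, K.ι g⁻¹)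

/-- The root space of an integer vector `α`: the elements `X` of the complexified Lie algebra with
`τ(x) X τ(x)⁻¹ = exp (2 π i ⟨α, x⟩) X` for all `x`. -/
noncomputable def rootSpace (α : Fin K.r → ℤ) : Submodule ℂ (Mat K.n) :=
  K.lieAlgC ⊓ ⨅ x, Module.End.eigenspace (K.ad (K.τ x)) (chr α x)

/-- The multiplicity of an integer vector in the multiset of roots (nonzero weights of the adjoint
action on the complexified Lie algebra). -/
noncomputable def rootMult (α : Fin K.r → ℤ) : ℕ :=
  if α = 0 then 0 else Module.finrank ℂ (K.rootSpace α)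

/-- The sum of `f` over the multiset `Δ_G` of roots. -/
noncomputable def rootSum (f : (Fin K.r → ℤ) → ℝ) : ℝ := ∑ᶠ α, (K.rootMult α : ℝ) * f α

end GaugeGroup

/-- A finite-dimensional continuous complex representation of `G` together with an
`R`-charge `0 < r < 2`. -/
structure Matter (K : GaugeGroup) where
  V : Type
  [instAdd : AddCommGroup V]
  [instMod : Module ℂ V]
  [instFin : FiniteDimensional ℂ V]
  R : Representation ℂ K.G V
  cont : ∀ (φ : Module.Dual ℂ V) (v : V), Continuous fun g => φ (R g v)
  rch : ℝ
  rch_pos : 0 < rch
  rch_lt : rch < 2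

namespace Matter

attribute [instance] Matter.instAdd Matter.instMod Matter.instFin

variable {K : GaugeGroup} (M : Matter K)

/-- The dimension of the representation. -/
noncomputable def dim : ℕ := Module.finrank ℂ M.V

/-- The weight space of an integer vector `w`: the vectors `v` with
`R(τ(x)) v = exp (2 π i ⟨w, x⟩) v` for all `x`. -/
noncomputable def weightSpace (w : Fin K.r → ℤ) : Submodule ℂ M.V :=
  ⨅ x, Module.End.eigenspace (M.R (K.τ x)) (chr w x)

/-- The multiplicity of an integer vector in the multiset of weights. -/
noncomputable def mult (w : Fin K.r → ℤ) : ℕ := Module.finrank ℂ (M.weightSpace w)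

/-- The sum of `f` over the multiset of weights of the representation. -/
noncomputable def weightSum (f : (Fin K.r → ℤ) → ℝ) : ℝ := ∑ᶠ w, (M.mult w : ℝ) * f w

end Matter

/-- The datum of an elliptic hypergeometric integral: a compact connected semisimple Lie group
and finitely many representations with `R`-charges in `(0,2)`, subject to the anomaly
conditions. -/
structure EHI where
  K : GaugeGroup
  N : ℕ
  M : Fin N → Matter K
  anomaly₃ : ∀ l m n, ∑ j, (M j).weightSum (fun w => (w l : ℝ) * w m * w n) = 0
  anomaly₂ : ∀ l m, ∑ j, ((M j).rch - 1) * (M j).weightSum (fun w => (w l : ℝ) * w m)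
    + K.rootSum (fun α => (α l : ℝ) * α m) = 0

namespace EHI

variable (E : EHI)

/-- The nonzero weights of all the representations together split into pairs `{ρ, -ρ}`. -/
def NonChiral : Prop := ∀ w : Fin E.K.r → ℤ, w ≠ 0 → ∑ j, (E.M j).mult w = ∑ j, (E.M j).mult (-w)

/-- The Rains function. The sum over positive roots is half the sum over all
roots, as `ϑ` is even. -/
noncomputable def Lh (x : Fin E.K.r → ℝ) : ℝ :=
  1 / 2 * ∑ j, (1 - (E.M j).rch) * (E.M j).weightSum (fun w => vartheta (pairing w x))
    - 1 / 2 * E.K.rootSum (fun α => vartheta (pairing α x))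

/-- The minimum of the Rains function. -/
noncomputable def LhMin : ℝ := ⨅ x, E.Lh x

/-- `Tr R`. -/
noncomputable def TrR : ℝ := (E.K.dim : ℝ) + ∑ j, ((E.M j).rch - 1) * (E.M j).dim

/-- One-loop asymptotic freedom (for a simple group): the quadratic index of the matter is less
than three times the quadratic index of the adjoint representation. -/
def AsymptoticallyFree : Prop :=
  ∀ l, ∑ j, (E.M j).weightSum (fun w => (w l : ℝ) * w l) <
    3 * E.K.rootSum (fun α => (α l : ℝ) * α l)

/-- The anomaly condition for another assignment `r'` of `R`-charges to the same matter. -/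
def IsAnomalyFree (r' : Fin E.N → ℝ) : Prop :=
  ∀ l m, ∑ j, (r' j - 1) * (E.M j).weightSum (fun w => (w l : ℝ) * w m)
    + E.K.rootSum (fun α => (α l : ℝ) * α m) = 0

/-- The trial central charge `a = (3/32) (3 Tr R³ - Tr R)` of an assignment of `R`-charges. -/
noncomputable def trialA (r' : Fin E.N → ℝ) : ℝ :=
  3 / 32 * (3 * ((E.K.dim : ℝ) + ∑ j, (r' j - 1) ^ 3 * (E.M j).dim)
    - ((E.K.dim : ℝ) + ∑ j, (r' j - 1) * (E.M j).dim))

/-- The `R`-charges of the datum. -/
def charges (j : Fin E.N) : ℝ := (E.M j).rch

/-- `a`-maximisation: the `R`-charges of the datum are a local maximum of the trial central charge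
among all anomaly-free assignments of `R`-charges to the same matter. -/
def AMaximal : Prop :=
  ∀ᶠ r' in 𝓝 E.charges, E.IsAnomalyFree r' → E.trialA r' ≤ E.trialA E.charges

end EHI

end Pool.Agent.Work.MP_321bb7_mp
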