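import Mathlib
import Pool.Agent.Work.MP_321bb7_mp.Defs

set_option autoImplicit false

open scoped BigOperators Topology

namespace Pool.Agent.Work.MP_321bb7_mp

variable {r : ℕ}

lemma pairing_add_left (w w' : Fin r → ℤ) (x : Fin r → ℝ) :
    pairing (w + w') x = pairing w x + pairing w' x := by
  simp [pairing, add_mul, Finset.sum_add_distrib]

lemma pairing_neg_left (w : Fin r → ℤ) (x : Fin r → ℝ) :
    pairing (-w) x = - pairing w x := by
  simp [pairing]

lemma pairing_zero_left (x : Fin r → ℝ) : pairing (0 : Fin r → ℤ) x = 0 := by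
  simp [pairing]

lemma pairing_add_right (w : Fin r → ℤ) (x y : Fin r → ℝ) :
    pairing w (x + y) = pairing w x + pairing w y := by
  simp [pairing, mul_add, Finset.sum_add_distrib]

lemma pairing_int (w : Fin r → ℤ) (k : Fin r → ℤ) :
    pairing w (fun i => (k i : ℝ)) = ((∑ i, w i * k i : ℤ) : ℝ) := by
  simp [pairing]

lemma pairing_single (w : Fin r → ℤ) (i : Fin r) (t : ℝ) :
    pairing w (Pi.single i t) = w i * t := by
  simp [pairing, Pi.single_apply]

lemma chr_add (w : Fin r → ℤ) (x y : Fin r → ℝ) : chr w (x + y) = chr w x * chr w y := by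
  unfold chr
  rw [← Complex.exp_add, pairing_add_right]
  congr 1
  push_cast
  ring

lemma chr_add_left (w w' : Fin r → ℤ) (x : Fin r → ℝ) : chr (w + w') x = chr w x * chr w' x := by
  unfold chr
  rw [← Complex.exp_add, pairing_add_left]
  congr 1
  push_cast
  ring

lemma chr_zero_left (x : Fin r → ℝ) : chr (0 : Fin r → ℤ) x = 1 := by
  unfold chr
  rw [pairing_zero_left]
  simp

lemma chr_zero_right (w : Fin r → ℤ) : chr w 0 = 1 := by
  unfold chr
  simp [pairing]

lemma chr_neg_left (w : Fin r → ℤ) (x : Fin r → ℝ) : chr (-w) x = star (chr w x) := by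
  unfold chr
  rw [pairing_neg_left]
  change _ = (starRingEnd ℂ) _
  rw [← Complex.exp_conj]
  congr 1
  simp only [Complex.ofReal_neg, map_mul, Complex.conj_ofReal, Complex.conj_I]
  rw [show (starRingEnd ℂ) 2 = 2 from Complex.conj_ofNat 2]
  ring

lemma chr_mul_star (w : Fin r → ℤ) (x : Fin r → ℝ) : chr w x * star (chr w x) = 1 := by
  rw [← chr_neg_left, ← chr_add_left, add_neg_cancel, chr_zero_left]

lemma chr_ne_zero (w : Fin r → ℤ) (x : Fin r → ℝ) : chr w x ≠ 0 := by
  intro h
  have := chr_mul_star w x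
  rw [h, zero_mul] at this
  exact zero_ne_one this

lemma chr_int (w : Fin r → ℤ) (k : Fin r → ℤ) : chr w (fun i => (k i : ℝ)) = 1 := by
  unfold chr
  rw [pairing_int, Complex.exp_eq_one_iff]
  exact ⟨∑ i, w i * k i, by push_cast; ring⟩

lemma continuous_chr (w : Fin r → ℤ) : Continuous (chr w) := by
  unfold chr pairing
  fun_prop

lemma chr_eq_one_iff (w : Fin r → ℤ) (x : Fin r → ℝ) :
    chr w x = 1 ↔ ∃ n : ℤ, pairing w x = n := by
  unfold chr
  rw [Complex.exp_eq_one_iff]
  constructor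
  · rintro ⟨n, hn⟩
    refine ⟨n, ?_⟩
    have h : (2 * (Real.pi : ℂ) * Complex.I) ≠ 0 := by
      simp [Real.pi_ne_zero]
    have : (2 * (Real.pi : ℂ) * Complex.I) * (pairing w x : ℝ) = (2 * (Real.pi : ℂ) * Complex.I) * n := by
      rw [hn]; ring
    have h2 := mul_left_cancel₀ h this
    exact_mod_cast h2
  · rintro ⟨n, hn⟩
    refine ⟨n, ?_⟩
    rw [hn]; push_cast; ring

lemma exists_chr_ne_one {w : Fin r → ℤ} (hw : w ≠ 0) : ∃ x, chr w x ≠ 1 := by
  obtain ⟨i, hi⟩ := Function.ne_iff.1 hw
  refine ⟨Pi.single i (1 / (2 * (w i : ℝ))), ?_⟩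
  rw [Ne, chr_eq_one_iff]
  rintro ⟨n, hn⟩
  rw [pairing_single] at hn
  have hwi : (w i : ℝ) ≠ 0 := by
    exact_mod_cast hi
  have h2 : (w i : ℝ) * (1 / (2 * (w i : ℝ))) = 1 / 2 := by
    field_simp
  rw [h2] at hn
  have h3 : (1 : ℝ) = 2 * n := by linarith
  have h4 : (1 : ℤ) = 2 * n := by exact_mod_cast h3
  omega

lemma exists_chr_ne {w w' : Fin r → ℤ} (hw : w ≠ w') : ∃ x, chr w x ≠ chr w' x := by
  obtain ⟨x, hx⟩ := exists_chr_ne_one (sub_ne_zero.2 hw)
  refine ⟨x, fun h => hx ?_⟩
  rw [sub_eq_add_neg, chr_add_left, chr_neg_left, h, chr_mul_star]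

/-- Finite-dimensional eigenspace count. -/
lemma finrank_joint_eigenspace {V κ : Type*} [AddCommGroup V] [Module ℂ V] [Fintype κ]
    (b : Module.Basis κ ℂ V) (A : (Fin r → ℝ) → V →ₗ[ℂ] V) (ω : κ → (Fin r → ℤ))
    (hA : ∀ x k, A x (b k) = chr (ω k) x • b k) (w : Fin r → ℤ) (S : Submodule ℂ V)
    (hS : ∀ v, v ∈ S ↔ ∀ x, A x v = chr w x • v) [DecidableEq (Fin r → ℤ)] :
    Module.finrank ℂ S = (Finset.univ.filter (fun k => ω k = w)).card := by
  have key : S = Submodule.span ℂ (Set.range (fun k : {k // ω k = w} => b k)) := by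
    apply le_antisymm
    · intro v hv
      rw [hS] at hv
      have hz : ∀ k, ω k ≠ w → b.repr v k = 0 := by
        intro k hk
        obtain ⟨x, hx⟩ := exists_chr_ne hk
        have h1 := hv x
        have h2 : A x v = ∑ j, (b.repr v j * chr (ω j) x) • b j := by
          conv_lhs => rw [← b.sum_repr v]
          rw [map_sum]
          refine Finset.sum_congr rfl (fun j _ => ?_)
          rw [map_smul, hA, smul_smul]
        rw [h2] at h1
        have h3 := congrArg (fun u => b.repr u k) h1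
        simp only [map_sum, map_smul, Finsupp.coe_finsetSum, Finset.sum_apply, Finsupp.smul_apply,
          b.repr_self, smul_eq_mul] at h3
        rw [Finset.sum_eq_single k] at h3
        · simp only [Finsupp.single_eq_same, mul_one] at h3
          have h4 : b.repr v k * (chr (ω k) x - chr w x) = 0 := by
            rw [mul_sub, h3]; ring
          rcases mul_eq_zero.1 h4 with h5 | h5
          · exact h5
          · exact absurd (sub_eq_zero.1 h5) hx
        · intro j _ hj
          rw [Finsupp.single_eq_of_ne (Ne.symm hj), mul_zero]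
        · intro h; exact absurd (Finset.mem_univ k) h
      rw [← b.sum_repr v]
      apply Submodule.sum_mem
      intro k _
      by_cases hk : ω k = w
      · exact Submodule.smul_mem _ _ (Submodule.subset_span ⟨⟨k, hk⟩, rfl⟩)
      · rw [hz k hk, zero_smul]; exact Submodule.zero_mem _
    · rw [Submodule.span_le]
      rintro _ ⟨⟨k, hk⟩, rfl⟩
      change b k ∈ S
      rw [hS]
      intro x
      rw [hA, hk]
  rw [key, finrank_span_eq_card]
  · rw [Fintype.card_subtype]
  · exact b.linearIndependent.comp _ Subtype.val_injective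

lemma mem_rootSpace (K : GaugeGroup) (α : Fin K.r → ℤ) (X : Matrix (Fin K.n) (Fin K.n) ℂ) :
    X ∈ K.rootSpace α ↔ X ∈ K.lieAlgC ∧
      ∀ x, K.ι (K.τ x) * X * K.ι (K.τ x)⁻¹ = chr α x • X := by
  unfold GaugeGroup.rootSpace GaugeGroup.ad
  simp only [Submodule.mem_inf, Submodule.mem_iInf, Module.End.mem_eigenspace_iff,
    LinearMap.mulLeftRight_apply]

lemma mem_weightSpace {K : GaugeGroup} (M : Matter K) (w : Fin K.r → ℤ) (v : M.V) :
    v ∈ M.weightSpace w ↔ ∀ x, M.R (K.τ x) v = chr w x • v := by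
  unfold Matter.weightSpace
  simp only [Submodule.mem_iInf, Module.End.mem_eigenspace_iff]

lemma finsum_card_fiber {κ : Type*} [Fintype κ] [DecidableEq (Fin r → ℤ)]
    (ω : κ → (Fin r → ℤ)) (f : (Fin r → ℤ) → ℝ) :
    ∑ᶠ w : Fin r → ℤ, ((Finset.univ.filter (fun k => ω k = w)).card : ℝ) * f w
      = ∑ k, f (ω k) := by
  rw [finsum_eq_sum_of_support_subset (s := Finset.univ.image ω)]
  · rw [Finset.sum_comp f ω]
    refine Finset.sum_congr rfl (fun w _ => ?_)
    rw [nsmul_eq_mul]
  · intro w hw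
    rw [Function.mem_support] at hw
    have : ((Finset.univ.filter (fun k => ω k = w)).card : ℝ) ≠ 0 := left_ne_zero_of_mul hw
    have h2 : (Finset.univ.filter (fun k => ω k = w)).card ≠ 0 := by exact_mod_cast this
    rw [Finset.card_ne_zero] at h2
    obtain ⟨k, hk⟩ := h2
    rw [Finset.mem_filter] at hk
    simp only [Finset.coe_image, Set.mem_image]
    exact ⟨k, by simp, hk.2⟩

end Pool.Agent.Work.MP_321bb7_mp
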