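import Mathlib

set_option autoImplicit false

open scoped BigOperators Topology

namespace Pool.Agent.Work.MP_321bb7_mp

section
open scoped Matrix.Norms.L2Operator
open selfAdjoint

variable {n : ℕ}

lemma circle_infinite : Infinite Circle := by
  have : Set.Infinite (Set.Ioc (-Real.pi) Real.pi) := Set.Ioc_infinite (by linarith [Real.pi_pos])
  have h2 : Infinite (Set.Ioc (-Real.pi) Real.pi) := this.to_subtype
  exact Infinite.of_injective (fun x : Set.Ioc (-Real.pi) Real.pi => Circle.exp x.1)
    (fun x y h => by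
      ext
      exact Circle.exp_injOn_Ioc (a := -Real.pi) (b := Real.pi) (by linarith) x.2 y.2 h)

lemma scal_mem (z : Circle) : (z : ℂ) • (1 : Matrix (Fin n) (Fin n) ℂ) ∈ Matrix.unitaryGroup (Fin n) ℂ := by
  rw [Matrix.mem_unitaryGroup_iff, star_smul, star_one, Matrix.smul_mul, Matrix.mul_smul,
      mul_one, smul_smul]
  have : (z : ℂ) * star (z : ℂ) = 1 := by
    have := Circle.coe_mul z z⁻¹
    rw [Circle.coe_inv_eq_conj] at this
    simpa using this.symm
  rw [this, one_smul]

/-- scalar unitary -/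
noncomputable def scal (n : ℕ) (z : Circle) : Matrix.unitaryGroup (Fin n) ℂ :=
  ⟨(z : ℂ) • (1 : Matrix (Fin n) (Fin n) ℂ), scal_mem z⟩

lemma continuous_scal : Continuous (scal n) := by
  unfold scal
  refine Continuous.subtype_mk ?_ _
  fun_prop

lemma joined_unitary : ∀ u : Matrix.unitaryGroup (Fin n) ℂ, Joined (1 : Matrix.unitaryGroup (Fin n) ℂ) u := by
  intro u
  obtain ⟨z, hz⟩ : ∃ z : Circle, -(z : ℂ) ∉ spectrum ℂ (u : Matrix (Fin n) (Fin n) ℂ) := by
    have hfin : (spectrum ℂ (u : Matrix (Fin n) (Fin n) ℂ)).Finite := Matrix.finite_spectrum _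
    by_contra h
    push Not at h
    have := circle_infinite
    have h1 : Set.Infinite (Set.range (fun z : Circle => -(z : ℂ))) :=
      Set.infinite_range_of_injective (fun x y h => by
        apply Circle.ext
        simpa using h)
    exact h1 (hfin.subset (by rintro _ ⟨z, rfl⟩; exact h z))
  have h1 : Joined (1 : Matrix.unitaryGroup (Fin n) ℂ) (scal n z) := by
    have : Joined (1 : Circle) z := PathConnectedSpace.joined _ _
    have h2 := this.map (continuous_scal (n := n))
    have h3 : scal n 1 = 1 := by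
      ext1
      simp [scal]
    rwa [h3] at h2
  have h2 : Joined (scal n z) u := by
    have h3 : Joined (1 : Matrix.unitaryGroup (Fin n) ℂ) (scal n z⁻¹ * u) := by
      apply Unitary.joined
      have : ((scal n z⁻¹ * u : Matrix.unitaryGroup (Fin n) ℂ) : Matrix (Fin n) (Fin n) ℂ) - 
          ((1 : Matrix.unitaryGroup (Fin n) ℂ) : Matrix (Fin n) (Fin n) ℂ) =
          ((scal n z⁻¹ * u : Matrix.unitaryGroup (Fin n) ℂ) : Matrix (Fin n) (Fin n) ℂ) - 1 := rfl
      rw [this, Unitary.norm_sub_one_lt_two_iff (scal n z⁻¹ * u).2]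
      intro hm
      apply hz
      have h6 : (u : Matrix (Fin n) (Fin n) ℂ) = (z : ℂ) • ((scal n z⁻¹ * u : Matrix.unitaryGroup (Fin n) ℂ) : Matrix (Fin n) (Fin n) ℂ) := by
        simp [scal, smul_smul]
      rw [h6]
      have h7 := (spectrum.smul_mem_smul_iff (R := ℂ) (r := Units.mk0 (z : ℂ) (by simp))).2 hm
      simpa [Units.smul_def] using h7
    have h4 := Joined.mul (Joined.refl (scal n z)) h3
    rw [mul_one, ← mul_assoc] at h4
    have h5 : scal n z * scal n z⁻¹ = 1 := by
      ext1
      simp [scal, smul_smul]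
    rwa [h5, one_mul] at h4
  exact h1.trans h2

instance instPCU : PathConnectedSpace (Matrix.unitaryGroup (Fin n) ℂ) where
  nonempty := ⟨1⟩
  joined := fun x y => (joined_unitary x).symm.trans (joined_unitary y)

end

end Pool.Agent.Work.MP_321bb7_mp
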