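import Mathlib
import Pool.Agent.Work.MP_321bb7_mp.Conn

set_option autoImplicit false

open scoped BigOperators Topology

namespace Pool.Agent.Work.MP_321bb7_mp

/-- The special unitary group `SU(3)`. -/
def SU3 : Type := Matrix.specialUnitaryGroup (Fin 3) ℂ

/-- The group structure of `SU(3)`, from Mathlib. -/
noncomputable instance instGroupSU3 : Group SU3 :=
  (inferInstance : Group (Matrix.specialUnitaryGroup (Fin 3) ℂ))

/-- The topology of `SU(3)`, as a subspace of the matrices. -/
noncomputable instance instTopSU3 : TopologicalSpace SU3 :=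
  (inferInstance : TopologicalSpace (Matrix.specialUnitaryGroup (Fin 3) ℂ))

/-- The inclusion of `SU(3)` into the matrices. -/
noncomputable def incl : SU3 →* Matrix (Fin 3) (Fin 3) ℂ := (Matrix.specialUnitaryGroup (Fin 3) ℂ).subtype

lemma incl_apply (g : SU3) : incl g = g.1 := rfl

lemma continuous_incl : Continuous incl := continuous_subtype_val

lemma incl_injective : Function.Injective incl := Subtype.val_injective

lemma su3_ext {g h : SU3} (H : incl g = incl h) : g = h := incl_injective H

lemma incl_det (g : SU3) : (incl g).det = 1 := (Matrix.mem_specialUnitaryGroup_iff.1 g.2).2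

lemma incl_mem (g : SU3) : incl g ∈ Matrix.unitaryGroup (Fin 3) ℂ :=
  (Matrix.mem_specialUnitaryGroup_iff.1 g.2).1

lemma incl_inv (g : SU3) : incl g⁻¹ = star (incl g) := rfl

instance instTopGroupSU3 : IsTopologicalGroup SU3 where
  continuous_mul := by
    apply Continuous.subtype_mk
    exact (continuous_subtype_val.comp continuous_fst).mul (continuous_subtype_val.comp continuous_snd)
  continuous_inv := by
    apply Continuous.subtype_mk
    exact continuous_star.comp continuous_subtype_val

lemma mem_su_iff (M : Matrix (Fin 3) (Fin 3) ℂ) :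
    M ∈ Matrix.specialUnitaryGroup (Fin 3) ℂ ↔ M * star M = 1 ∧ M.det = 1 := by
  rw [Matrix.mem_specialUnitaryGroup_iff, Matrix.mem_unitaryGroup_iff]

instance instCompactSU3 : CompactSpace SU3 := by
  have hc : IsCompact {M : Matrix (Fin 3) (Fin 3) ℂ | M ∈ Matrix.specialUnitaryGroup (Fin 3) ℂ} := by
    have hK : IsCompact {M : Matrix (Fin 3) (Fin 3) ℂ | ∀ i, M i ∈ {v : Fin 3 → ℂ | ∀ j, v j ∈ Metric.closedBall (0:ℂ) 1}} := by
      apply isCompact_pi_infinite
      intro i
      apply isCompact_pi_infinite
      intro j
      exact isCompact_closedBall _ _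
    apply hK.of_isClosed_subset
    · have : {M : Matrix (Fin 3) (Fin 3) ℂ | M ∈ Matrix.specialUnitaryGroup (Fin 3) ℂ} =
        {M | M * star M = 1} ∩ {M | M.det = 1} := by
        ext M; exact mem_su_iff M
      rw [this]
      apply IsClosed.inter
      · exact isClosed_eq (continuous_id.mul continuous_star) continuous_const
      · exact isClosed_eq (Continuous.matrix_det continuous_id) continuous_const
    · intro M hM i j
      rw [mem_closedBall_zero_iff]
      exact entry_norm_bound_of_unitary (Matrix.mem_specialUnitaryGroup_iff.1 hM).1 i j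
  exact isCompact_iff_compactSpace.1 hc

lemma det_unitary (u : Matrix.unitaryGroup (Fin 3) ℂ) :
    (u : Matrix (Fin 3) (Fin 3) ℂ).det * star (u : Matrix (Fin 3) (Fin 3) ℂ).det = 1 := by
  have h := (Matrix.mem_unitaryGroup_iff.1 u.2)
  have h2 := congrArg Matrix.det h
  rw [Matrix.det_mul, Matrix.det_one, Matrix.star_eq_conjTranspose, Matrix.det_conjTranspose] at h2
  exact h2

/-- a diagonal matrix with entries `z, 1, 1`. -/
def dg (z : ℂ) : Matrix (Fin 3) (Fin 3) ℂ := Matrix.diagonal (fun i => if i = 0 then z else 1)

lemma dg_mem {z : ℂ} (hz : z * star z = 1) : dg z ∈ Matrix.unitaryGroup (Fin 3) ℂ := by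
  rw [Matrix.mem_unitaryGroup_iff, dg, Matrix.star_eq_conjTranspose, Matrix.diagonal_conjTranspose,
    Matrix.diagonal_mul_diagonal]
  rw [← Matrix.diagonal_one]
  congr 1
  ext i
  by_cases h : i = 0
  · simp [h]; simpa using hz
  · simp [h]

lemma det_dg (z : ℂ) : (dg z).det = z := by
  rw [dg, Matrix.det_diagonal, Fin.prod_univ_three]
  simp

/-- retraction of `U(3)` onto `SU(3)`. -/
noncomputable def ret (u : Matrix.unitaryGroup (Fin 3) ℂ) : SU3 :=
  ⟨(u : Matrix (Fin 3) (Fin 3) ℂ) * dg (star (u : Matrix (Fin 3) (Fin 3) ℂ).det), by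
    rw [Matrix.mem_specialUnitaryGroup_iff]
    constructor
    · exact mul_mem u.2 (dg_mem (by rw [star_star, mul_comm]; exact det_unitary u))
    · rw [Matrix.det_mul, det_dg]
      exact det_unitary u⟩

lemma continuous_ret : Continuous ret := by
  unfold ret
  refine Continuous.subtype_mk ?_ _
  refine continuous_subtype_val.mul ?_
  unfold dg
  apply Continuous.matrix_diagonal
  apply continuous_pi
  intro i
  by_cases h : i = 0
  · simp only [h, if_true]
    exact continuous_star.comp (Continuous.matrix_det continuous_subtype_val)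
  · simp only [h, if_false]
    exact continuous_const

lemma surjective_ret : Function.Surjective ret := by
  intro g
  refine ⟨⟨incl g, incl_mem g⟩, ?_⟩
  apply su3_ext
  change incl g * dg (star (incl g).det) = incl g
  rw [incl_det, star_one]
  have : dg 1 = 1 := by
    unfold dg
    rw [← Matrix.diagonal_one]
    congr 1
    ext i
    simp
  rw [this, mul_one]

instance instConnectedSU3 : ConnectedSpace SU3 := surjective_ret.connectedSpace continuous_ret

end Pool.Agent.Work.MP_321bb7_mp
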