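import Mathlib
import Pool.Agent.Work.MP_321bb7_mp.Chr
import Pool.Agent.Work.MP_321bb7_mp.SU3a

set_option autoImplicit false

open scoped BigOperators Topology

namespace Pool.Agent.Work.MP_321bb7_mp

/-- the three weights of the fundamental representation -/
def om : Fin 3 → (Fin 2 → ℤ) := ![![1, 0], ![0, 1], ![-1, -1]]

lemma om_sum : om 0 + om 1 + om 2 = 0 := by
  ext i; fin_cases i <;> simp [om]

lemma pairing_om0 (x : Fin 2 → ℝ) : pairing (om 0) x = x 0 := by
  simp [om, pairing, Fin.sum_univ_two]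
lemma pairing_om1 (x : Fin 2 → ℝ) : pairing (om 1) x = x 1 := by
  simp [om, pairing, Fin.sum_univ_two]
lemma pairing_om2 (x : Fin 2 → ℝ) : pairing (om 2) x = - x 0 - x 1 := by
  simp [om, pairing, Fin.sum_univ_two]; ring

lemma diag_mem (ω : Fin 3 → (Fin 2 → ℤ)) (x : Fin 2 → ℝ) :
    (Matrix.diagonal (fun i => chr (ω i) x) : Matrix (Fin 3) (Fin 3) ℂ) ∈ Matrix.unitaryGroup (Fin 3) ℂ := by
  rw [Matrix.mem_unitaryGroup_iff, Matrix.star_eq_conjTranspose, Matrix.diagonal_conjTranspose,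
    Matrix.diagonal_mul_diagonal, ← Matrix.diagonal_one]
  congr 1
  ext i
  exact chr_mul_star _ _

/-- The diagonal matrix with entries
`exp (2 π i x₀)`, `exp (2 π i x₁)`, `exp (- 2 π i (x₀ + x₁))`. -/
noncomputable def dmat (x : Fin 2 → ℝ) : Mat 3 := Matrix.diagonal (fun i => chr (om i) x)

lemma dmat_mem (x : Fin 2 → ℝ) : dmat x ∈ Matrix.specialUnitaryGroup (Fin 3) ℂ := by
  rw [Matrix.mem_specialUnitaryGroup_iff]
  refine ⟨diag_mem om x, ?_⟩
  rw [dmat, Matrix.det_diagonal, Fin.prod_univ_three, ← chr_add_left, ← chr_add_left, om_sum,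
      chr_zero_left]

/-- The standard maximal torus of `SU(3)`: the diagonal matrices with entries
`exp (2 π i x₀)`, `exp (2 π i x₁)`, `exp (- 2 π i (x₀ + x₁))`. -/
noncomputable def tau3 (x : Fin 2 → ℝ) : SU3 := ⟨dmat x, dmat_mem x⟩

lemma tau3_val (x : Fin 2 → ℝ) : incl (tau3 x) = Matrix.diagonal (fun i => chr (om i) x) := rfl

lemma tau3_add (x y : Fin 2 → ℝ) : tau3 (x + y) = tau3 x * tau3 y := by
  apply su3_ext
  rw [map_mul, tau3_val, tau3_val, tau3_val, Matrix.diagonal_mul_diagonal]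
  congr 1
  ext i
  exact chr_add _ _ _

lemma continuous_tau3 : Continuous tau3 := by
  unfold tau3
  refine Continuous.subtype_mk ?_ _
  apply Continuous.matrix_diagonal
  exact continuous_pi (fun i => continuous_chr _)

lemma tau3_int (k : Fin 2 → ℤ) : tau3 (fun i => (k i : ℝ)) = 1 := by
  apply su3_ext
  rw [tau3_val, map_one]
  simp only [chr_int]
  exact Matrix.diagonal_one

lemma tau3_discrete : ∀ᶠ x in 𝓝 (0 : Fin 2 → ℝ), tau3 x = 1 → x = 0 := by
  have h : ∀ᶠ x in 𝓝 (0 : Fin 2 → ℝ), x ∈ Metric.ball (0 : Fin 2 → ℝ) 1 := 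
    Metric.ball_mem_nhds _ one_pos
  filter_upwards [h] with x hx h1
  have h2 : (Matrix.diagonal (fun i => chr (om i) x) : Matrix (Fin 3) (Fin 3) ℂ) = 1 := by
    rw [← tau3_val, h1, map_one]
  have hd : ∀ i, chr (om i) x = 1 := by
    intro i
    have := congrFun (congrFun h2 i) i
    simpa using this
  rw [Metric.mem_ball, dist_zero_right, pi_norm_lt_iff one_pos] at hx
  have key : ∀ i : Fin 3, ∀ j : Fin 2, pairing (om i) x = x j → x j = 0 := by
    intro i j hij
    obtain ⟨n, hn⟩ := (chr_eq_one_iff _ _).1 (hd i)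
    rw [hij] at hn
    have := hx j
    rw [hn, Real.norm_eq_abs] at this
    have h3 : |n| < 1 := by exact_mod_cast this
    rw [Int.abs_lt_one_iff] at h3
    rw [hn, h3]; simp
  ext j
  fin_cases j
  · exact key 0 0 (pairing_om0 x)
  · exact key 1 1 (pairing_om1 x)

lemma exists_distinct : ∃ x : Fin 2 → ℝ, ∀ i j : Fin 3, i ≠ j → chr (om i) x ≠ chr (om j) x := by
  refine ⟨![1/3, 0], ?_⟩
  have h : ∀ i j : Fin 3, (¬ ∃ n : ℤ, pairing (om i - om j) ![1/3, 0] = n) →
      chr (om i) ![1/3, 0] ≠ chr (om j) ![1/3, 0] := by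
    intro i j hn h
    apply hn
    rw [← chr_eq_one_iff, sub_eq_add_neg, chr_add_left, chr_neg_left, h, chr_mul_star]
  have h2 : ∀ m : ℤ, ¬ (3 ∣ m) → ¬ ∃ n : ℤ, (m : ℝ) / 3 = n := by
    rintro m hm ⟨n, hn⟩
    apply hm
    refine ⟨n, ?_⟩
    have : (m : ℝ) = 3 * n := by linarith
    exact_mod_cast this
  have h3 : ∀ i j : Fin 3, pairing (om i - om j) ![1/3, 0] = ((om i 0 - om j 0 : ℤ) : ℝ) / 3 := by
    intro i j
    simp [pairing, Fin.sum_univ_two]
    ring
  intro i j hij
  apply h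
  rw [h3]
  apply h2
  fin_cases i <;> fin_cases j <;> simp_all [om]

lemma tau3_max (g : SU3) (hg : ∀ x, g * tau3 x = tau3 x * g) : g ∈ Set.range tau3 := by
  set A : Matrix (Fin 3) (Fin 3) ℂ := incl g with hA
  have hcomm : ∀ x, A * Matrix.diagonal (fun i => chr (om i) x) = Matrix.diagonal (fun i => chr (om i) x) * A := by
    intro x
    have := congrArg incl (hg x)
    rwa [map_mul, map_mul, tau3_val] at this
  obtain ⟨x, hx⟩ := exists_distinct
  have hoff : ∀ i j, i ≠ j → A i j = 0 := by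
    intro i j hij
    have := congrFun (congrFun (hcomm x) i) j
    rw [Matrix.mul_diagonal, Matrix.diagonal_mul] at this
    have h2 : A i j * (chr (om j) x - chr (om i) x) = 0 := by
      rw [mul_sub, this]; ring
    rcases mul_eq_zero.1 h2 with h3 | h3
    · exact h3
    · exact absurd (sub_eq_zero.1 h3) (hx j i (Ne.symm hij))
  have hU := Matrix.mem_unitaryGroup_iff.1 (incl_mem g)
  have hdiag : A = Matrix.diagonal (fun i => A i i) := by
    ext i j
    by_cases h : i = j
    · subst h; simp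
    · rw [hoff i j h, Matrix.diagonal_apply_ne _ h]
  have hnorm : ∀ i, A i i * star (A i i) = 1 := by
    intro i
    have h1 : A * star A = 1 := hU
    rw [hdiag, Matrix.star_eq_conjTranspose, Matrix.diagonal_conjTranspose,
      Matrix.diagonal_mul_diagonal, ← Matrix.diagonal_one] at h1
    have := congrFun (Matrix.diagonal_injective h1) i
    simpa using this
  have hdet : A 0 0 * A 1 1 * A 2 2 = 1 := by
    have h1 : A.det = 1 := incl_det g
    rw [hdiag, Matrix.det_diagonal, Fin.prod_univ_three] at h1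
    exact h1
  have hrep : ∀ z : ℂ, z * star z = 1 → ∃ t : ℝ, z = Complex.exp (2 * Real.pi * Complex.I * t) := by
    intro z hz
    have hz1 : ‖z‖ = 1 := by
      have h1 : Complex.normSq z = 1 := by
        have h2 := Complex.mul_conj z
        rw [show (starRingEnd ℂ) z = star z from rfl, hz] at h2
        exact_mod_cast h2.symm
      rw [Complex.normSq_eq_norm_sq] at h1
      have h3 := norm_nonneg z
      nlinarith
    obtain ⟨θ, hθ⟩ := (Complex.norm_eq_one_iff z).1 hz1
    refine ⟨θ / (2 * Real.pi), ?_⟩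
    rw [← hθ]
    congr 1
    have : (Real.pi : ℂ) ≠ 0 := by exact_mod_cast Real.pi_ne_zero
    push_cast
    field_simp
  obtain ⟨t0, ht0⟩ := hrep _ (hnorm 0)
  obtain ⟨t1, ht1⟩ := hrep _ (hnorm 1)
  refine ⟨![t0, t1], ?_⟩
  apply su3_ext
  rw [tau3_val]
  change _ = A
  rw [hdiag]
  congr 1
  have e0 : chr (om 0) ![t0, t1] = A 0 0 := by
    rw [chr, pairing_om0, ht0]; simp
  have e1 : chr (om 1) ![t0, t1] = A 1 1 := by
    rw [chr, pairing_om1, ht1]; simp
  have e2 : chr (om 2) ![t0, t1] = A 2 2 := by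
    have h := congrArg (fun w => chr w ![t0, t1]) om_sum
    simp only [chr_add_left, chr_zero_left, e0, e1] at h
    have hne : A 0 0 * A 1 1 ≠ 0 := left_ne_zero_of_mul (a := A 0 0 * A 1 1) (b := A 2 2) (by rw [hdet]; exact one_ne_zero)
    exact mul_left_cancel₀ hne (h.trans hdet.symm)
  ext i
  fin_cases i
  · exact e0
  · exact e1
  · exact e2

end Pool.Agent.Work.MP_321bb7_mp
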