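import Mathlib
import Pool.Agent.Work.MP_321bb7_mp.SU3b

set_option autoImplicit false

open scoped BigOperators Topology

namespace Pool.Agent.Work.MP_321bb7_mp

/-- the cyclic permutation matrix -/
def cyc : Matrix (Fin 3) (Fin 3) ℂ := !![0, 0, 1; 1, 0, 0; 0, 1, 0]

lemma cyc_mem : cyc ∈ Matrix.unitaryGroup (Fin 3) ℂ := by
  rw [Matrix.mem_unitaryGroup_iff]
  ext i j
  fin_cases i <;> fin_cases j <;>
    simp [cyc, Matrix.mul_apply, Fin.sum_univ_three, Matrix.star_apply]

lemma cyc_det : cyc.det = 1 := by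
  simp [cyc, Matrix.det_fin_three]

/-- the cyclic permutation in `SU(3)` -/
def cycG : SU3 := ⟨cyc, Matrix.mem_specialUnitaryGroup_iff.2 ⟨cyc_mem, cyc_det⟩⟩

lemma finite_center_su3 : (Subgroup.center SU3 : Set SU3).Finite := by
  have hsub : ∀ g ∈ (Subgroup.center SU3 : Set SU3), ∃ z : ℂ, z ^ 3 = 1 ∧
      incl g = Matrix.diagonal (fun _ => z) := by
    intro g hg
    have hg' : ∀ h : SU3, h * g = g * h := fun h => (Subgroup.mem_center_iff.1 hg) h
    obtain ⟨x, hx⟩ := tau3_max g (fun x => (hg' (tau3 x)).symm)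
    have h1 := congrArg incl (hg' cycG)
    rw [map_mul, map_mul, ← hx, tau3_val] at h1
    have h1' : cyc * Matrix.diagonal (fun i => chr (om i) x) = Matrix.diagonal (fun i => chr (om i) x) * cyc := h1
    have e1 := congrFun (congrFun h1' 1) 0
    have e2 := congrFun (congrFun h1' 2) 1
    rw [Matrix.mul_diagonal, Matrix.diagonal_mul] at e1 e2
    simp [cyc] at e1 e2
    refine ⟨chr (om 0) x, ?_, ?_⟩
    · have hdet := incl_det (tau3 x)
      rw [tau3_val, Matrix.det_diagonal, Fin.prod_univ_three, ← e2, ← e1] at hdet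
      rw [← hdet]; ring
    · rw [← hx, tau3_val]
      congr 1
      ext i
      fin_cases i
      · rfl
      · exact e1.symm
      · exact (e1.trans e2).symm
  have hfin : {z : ℂ | z ^ 3 = 1}.Finite := by
    have : {z : ℂ | z ^ 3 = 1} ⊆ ((Polynomial.nthRoots 3 (1 : ℂ)).toFinset : Set ℂ) := by
      intro z hz
      simp only [Finset.mem_coe, Multiset.mem_toFinset]
      rw [Polynomial.mem_nthRoots (by norm_num)]
      exact hz
    exact (Finset.finite_toSet _).subset this
  apply Set.Finite.of_injOn (f := fun g : SU3 => incl g 0 0) (t := {z : ℂ | z ^ 3 = 1})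
  · intro g hg
    obtain ⟨z, hz, hz2⟩ := hsub g hg
    change (incl g 0 0) ^ 3 = 1
    rw [hz2]; simpa using hz
  · intro g hg h hh hgh
    obtain ⟨z, hz, hz2⟩ := hsub g hg
    obtain ⟨w, hw, hw2⟩ := hsub h hh
    apply su3_ext
    rw [hz2, hw2]
    have : z = w := by
      have hgh' : incl g 0 0 = incl h 0 0 := hgh
      rw [hz2, hw2] at hgh'
      simpa using hgh'
    rw [this]
  · exact hfin

/-- `SU(3)` with its standard maximal torus. -/
noncomputable def su3 : GaugeGroup where
  G := SU3
  n := 3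
  ι := incl
  ι_cont := continuous_incl
  ι_inj := incl_injective
  finite_center := finite_center_su3
  r := 2
  τ := tau3
  τ_add := tau3_add
  τ_cont := continuous_tau3
  τ_int := tau3_int
  τ_discrete := tau3_discrete
  τ_max := tau3_max

end Pool.Agent.Work.MP_321bb7_mp
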