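import Mathlib
import Pool.Agent.Work.MP_321bb7_mp.SU3c

set_option autoImplicit false

open scoped BigOperators Topology Matrix

namespace Pool.Agent.Work.MP_321bb7_mp

lemma det_exp_skew {n : ℕ} (X : Matrix (Fin n) (Fin n) ℂ) (hX : star X = -X) :
    (NormedSpace.exp X).det = Complex.exp X.trace := by
  have hH : ((-Complex.I) • X).IsHermitian := by
    rw [Matrix.IsHermitian, Matrix.conjTranspose_smul, ← Matrix.star_eq_conjTranspose, hX]
    simp
  set U := hH.eigenvectorUnitary with hU
  have hsp := hH.spectral_theorem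
  rw [Unitary.conjStarAlgAut_apply] at hsp
  set D : Fin n → ℂ := fun i => Complex.I * (hH.eigenvalues i : ℂ) with hD
  have hXD : X = (U : Matrix (Fin n) (Fin n) ℂ) * Matrix.diagonal D * (U : Matrix (Fin n) (Fin n) ℂ)⁻¹ := by
    have h1 : X = Complex.I • ((-Complex.I) • X) := by
      rw [smul_smul]; simp
    have h2 : Matrix.diagonal D = Complex.I • Matrix.diagonal (RCLike.ofReal ∘ hH.eigenvalues) := by
      rw [← Matrix.diagonal_smul]; rfl
    have h3 : (U : Matrix (Fin n) (Fin n) ℂ)⁻¹ = star (U : Matrix (Fin n) (Fin n) ℂ) := by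
      apply Matrix.inv_eq_right_inv
      exact Matrix.mem_unitaryGroup_iff.1 U.2
    rw [h1, hsp, h2, h3]
    simp only [Matrix.mul_smul, Matrix.smul_mul]
    rfl
  have hUu : IsUnit (U : Matrix (Fin n) (Fin n) ℂ) := by
    rw [Matrix.isUnit_iff_isUnit_det]
    have h1 := congrArg Matrix.det (Matrix.mem_unitaryGroup_iff.1 U.2)
    rw [Matrix.det_mul, Matrix.det_one] at h1
    exact IsUnit.of_mul_eq_one _ h1
  have hdetU : (U : Matrix (Fin n) (Fin n) ℂ).det * ((U : Matrix (Fin n) (Fin n) ℂ)⁻¹).det = 1 := by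
    rw [← Matrix.det_mul, Matrix.mul_nonsing_inv _ ((Matrix.isUnit_iff_isUnit_det _).1 hUu), Matrix.det_one]
  have htr : X.trace = ∑ i, D i := by
    rw [hXD, Matrix.trace_mul_cycle, Matrix.nonsing_inv_mul _ ((Matrix.isUnit_iff_isUnit_det _).1 hUu),
      Matrix.one_mul, Matrix.trace_diagonal]
  rw [htr, hXD, Matrix.exp_conj _ _ hUu, Matrix.det_mul, Matrix.det_mul, Matrix.exp_diagonal,
    Matrix.det_diagonal, mul_right_comm, hdetU, one_mul, Complex.exp_sum]
  refine Finset.prod_congr rfl (fun i _ => ?_)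
  rw [Pi.coe_exp, Complex.exp_eq_exp_ℂ]

section
open scoped Matrix.Norms.L2Operator

lemma skew_of_exp_unitary {n : ℕ} (X : Matrix (Fin n) (Fin n) ℂ)
    (h : ∀ t : ℝ, NormedSpace.exp (t • X) ∈ Matrix.unitaryGroup (Fin n) ℂ) : star X = -X := by
  have h1 : ∀ t : ℝ, NormedSpace.exp (t • star X) * NormedSpace.exp (t • X) = 1 := by
    intro t
    have h2 := Matrix.mem_unitaryGroup_iff'.1 (h t)
    rw [NormedSpace.star_exp, star_smul] at h2
    simpa using h2
  have hd1 : HasDerivAt (fun t : ℝ => NormedSpace.exp (t • star X) * NormedSpace.exp (t • X))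
      (star X * NormedSpace.exp ((0:ℝ) • star X) * NormedSpace.exp ((0:ℝ) • X) +
        NormedSpace.exp ((0:ℝ) • star X) * (X * NormedSpace.exp ((0:ℝ) • X))) 0 :=
    (hasDerivAt_exp_smul_const' (𝕂 := ℝ) (star X) (0:ℝ)).mul (hasDerivAt_exp_smul_const' (𝕂 := ℝ) X (0:ℝ))
  have hd2 : HasDerivAt (fun t : ℝ => NormedSpace.exp (t • star X) * NormedSpace.exp (t • X))
      0 0 := by
    have : (fun t : ℝ => NormedSpace.exp (t • star X) * NormedSpace.exp (t • X)) = fun _ => 1 := by
      ext1 t; exact h1 t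
    rw [this]
    exact hasDerivAt_const _ _
  have h3 := hd1.unique hd2
  simp only [zero_smul, NormedSpace.exp_zero, mul_one, one_mul] at h3
  exact eq_neg_of_add_eq_zero_left h3

lemma trace_zero_of_exp {n : ℕ} (X : Matrix (Fin n) (Fin n) ℂ) (hX : star X = -X)
    (h : ∀ t : ℝ, (NormedSpace.exp (t • X)).det = 1) : X.trace = 0 := by
  have h1 : ∀ t : ℝ, Complex.exp (t * X.trace) = 1 := by
    intro t
    rw [← h t, det_exp_skew, Matrix.trace_smul, Complex.real_smul]
    rw [star_smul, hX]; simp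
  have hd1 : HasDerivAt (fun t : ℝ => Complex.exp ((t : ℂ) * X.trace))
      (Complex.exp (((0:ℝ) : ℂ) * X.trace) * (1 * X.trace)) (0:ℝ) := by
    apply HasDerivAt.cexp
    exact (Complex.ofRealCLM.hasDerivAt).mul_const _
  have hd2 : HasDerivAt (fun t : ℝ => Complex.exp ((t : ℂ) * X.trace)) 0 (0:ℝ) := by
    have : (fun t : ℝ => Complex.exp ((t : ℂ) * X.trace)) = fun _ => 1 := by
      ext1 t; exact h1 t
    rw [this]
    exact hasDerivAt_const _ _
  have h3 := hd1.unique hd2
  simpa using h3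

lemma exp_mem_of_skew {n : ℕ} (X : Matrix (Fin n) (Fin n) ℂ) (hX : star X = -X) (t : ℝ) :
    NormedSpace.exp (t • X) ∈ Matrix.unitaryGroup (Fin n) ℂ := by
  letI : NormedAlgebra ℚ (Matrix (Fin n) (Fin n) ℂ) := NormedAlgebra.restrictScalars ℚ ℂ _
  apply NormedSpace.exp_mem_unitary_of_mem_skewAdjoint
  rw [skewAdjoint.mem_iff, star_smul, hX]
  simp

end

/-- traceless skew-Hermitian matrices -/
def sk3 : Submodule ℝ (Matrix (Fin 3) (Fin 3) ℂ) where
  carrier := {X | star X = -X ∧ X.trace = 0}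
  add_mem' := by
    rintro X Y ⟨h1, h2⟩ ⟨h3, h4⟩
    exact ⟨by rw [star_add, h1, h3, neg_add], by rw [Matrix.trace_add, h2, h4, add_zero]⟩
  zero_mem' := ⟨by simp, by simp⟩
  smul_mem' := by
    rintro c X ⟨h1, h2⟩
    exact ⟨by rw [star_smul, h1]; simp, by rw [Matrix.trace_smul, h2, smul_zero]⟩

lemma expSet_su3 : su3.expSet = (sk3 : Set (Matrix (Fin 3) (Fin 3) ℂ)) := by
  have h0 : su3.expSet = {X : Matrix (Fin 3) (Fin 3) ℂ | ∀ t : ℝ, ∃ g : SU3, incl g = NormedSpace.exp (t • X)} := rfl
  rw [h0]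
  ext X
  constructor
  · intro h
    have h1 : star X = -X := skew_of_exp_unitary X (fun t => by
      obtain ⟨g, hg⟩ := h t
      rw [← hg]
      exact incl_mem g)
    refine ⟨h1, trace_zero_of_exp X h1 (fun t => ?_)⟩
    obtain ⟨g, hg⟩ := h t
    rw [← hg]
    exact incl_det g
  · rintro ⟨h1, h2⟩ t
    refine ⟨⟨NormedSpace.exp (t • X), Matrix.mem_specialUnitaryGroup_iff.2 ⟨exp_mem_of_skew X h1 t, ?_⟩⟩, rfl⟩
    rw [det_exp_skew, Matrix.trace_smul, h2, smul_zero, Complex.exp_zero]
    rw [star_smul, h1]; simp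

lemma lieAlg_su3 : su3.lieAlg = sk3 := by
  unfold GaugeGroup.lieAlg
  rw [expSet_su3]
  exact Submodule.span_eq sk3

/-- the matrix with eight real parameters -/
def mk8 (a : Fin 8 → ℝ) : Matrix (Fin 3) (Fin 3) ℂ :=
  !![⟨0, a 0⟩, ⟨a 1, a 2⟩, ⟨a 3, a 4⟩; ⟨-a 1, a 2⟩, ⟨0, a 5⟩, ⟨a 6, a 7⟩; ⟨-a 3, a 4⟩, ⟨-a 6, a 7⟩, ⟨0, -a 0 - a 5⟩]

lemma mk8_mem (a : Fin 8 → ℝ) : mk8 a ∈ sk3 := by
  constructor
  · ext i j
    fin_cases i <;> fin_cases j <;> apply Complex.ext <;> simp [mk8, Matrix.star_apply]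
  · apply Complex.ext <;> simp [mk8, Matrix.trace, Fin.sum_univ_three]

/-- parametrisation of `𝔰𝔲(3)` by eight real numbers -/
noncomputable def equiv8 : (Fin 8 → ℝ) ≃ₗ[ℝ] sk3 where
  toFun a := ⟨mk8 a, mk8_mem a⟩
  map_add' := by
    intro a b
    apply Subtype.ext
    ext i j
    fin_cases i <;> fin_cases j <;> apply Complex.ext <;> simp [mk8] <;> ring
  map_smul' := by
    intro c a
    apply Subtype.ext
    ext i j
    fin_cases i <;> fin_cases j <;> apply Complex.ext <;> simp [mk8] <;> ring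
  invFun X := ![(X.1 0 0).im, (X.1 0 1).re, (X.1 0 1).im, (X.1 0 2).re, (X.1 0 2).im, (X.1 1 1).im,
    (X.1 1 2).re, (X.1 1 2).im]
  left_inv := by
    intro a
    ext i
    fin_cases i <;> simp [mk8]
  right_inv := by
    rintro ⟨X, h1, h2⟩
    apply Subtype.ext
    have hs : ∀ i j, star (X j i) = - X i j := by
      intro i j
      have := congrFun (congrFun h1 i) j
      simpa [Matrix.star_apply] using this
    have hre : ∀ i j, (X j i).re = - (X i j).re := by
      intro i j
      have := congrArg Complex.re (hs i j)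
      simpa using this
    have him : ∀ i j, (X j i).im = (X i j).im := by
      intro i j
      have := congrArg Complex.im (hs i j)
      simpa using this
    have hdd : ∀ i, (X i i).re = 0 := by
      intro i
      have := hre i i
      linarith
    have htr : X 0 0 + X 1 1 + X 2 2 = 0 := by
      simpa [Matrix.trace, Fin.sum_univ_three] using h2
    have htr' := congrArg Complex.im htr
    simp at htr'
    ext i j
    fin_cases i <;> fin_cases j <;> apply Complex.ext <;> simp [mk8, hdd]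
    · rw [hre 0 1]
    · rw [him 0 1]
    · rw [hre 0 2]
    · rw [him 0 2]
    · rw [hre 1 2]
    · rw [him 1 2]
    · linarith

lemma finrank_sk3 : Module.finrank ℝ sk3 = 8 := by
  rw [← equiv8.finrank_eq]
  simp

lemma dim_su3 : su3.dim = 8 := by
  unfold GaugeGroup.dim
  rw [lieAlg_su3]
  exact finrank_sk3

lemma mem_span_sk3 (X : Matrix (Fin 3) (Fin 3) ℂ) :
    X ∈ Submodule.span ℂ (sk3 : Set (Matrix (Fin 3) (Fin 3) ℂ)) ↔ X.trace = 0 := by
  constructor
  · intro h
    induction h using Submodule.span_induction with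
    | mem x hx => exact hx.2
    | zero => exact Matrix.trace_zero _ _
    | add x y _ _ hx hy =>
      have : (x + y).trace = x.trace + y.trace := Matrix.trace_add _ _
      rw [this, hx, hy, add_zero]
    | smul c x _ hx =>
      have : (c • x).trace = c • x.trace := Matrix.trace_smul _ _
      rw [this, hx, smul_zero]
  · intro h
    have hst : (star X).trace = 0 := by
      rw [Matrix.star_eq_conjTranspose, Matrix.trace_conjTranspose, h, star_zero]
    have h1 : X = ((1:ℂ)/2) • (X - star X) + (-Complex.I/2) • (Complex.I • (X + star X)) := by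
      rw [smul_smul, show (-Complex.I/2) * Complex.I = (1:ℂ)/2 by
        have := Complex.I_mul_I
        linear_combination (-1/2 : ℂ) * this]
      rw [← smul_add]
      have : X - star X + (X + star X) = (2:ℂ) • X := by
        rw [two_smul]; abel
      rw [this, smul_smul]
      norm_num
    rw [h1]
    apply Submodule.add_mem
    · apply Submodule.smul_mem
      apply Submodule.subset_span
      refine ⟨by rw [star_sub, star_star, neg_sub], by rw [Matrix.trace_sub, h, hst, sub_zero]⟩
    · apply Submodule.smul_mem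
      apply Submodule.subset_span
      refine ⟨?_, by rw [Matrix.trace_smul, Matrix.trace_add, h, hst, add_zero, smul_zero]⟩
      rw [star_smul, star_add, star_star]
      have : star Complex.I = -Complex.I := Complex.conj_I
      rw [this, neg_smul, add_comm]

lemma mem_lieAlgC_su3 (X : Matrix (Fin 3) (Fin 3) ℂ) : X ∈ su3.lieAlgC ↔ X.trace = 0 := by
  unfold GaugeGroup.lieAlgC
  rw [expSet_su3]
  exact mem_span_sk3 X

end Pool.Agent.Work.MP_321bb7_mp
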