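import Mathlib
import Pool.Agent.Work.MP_321bb7_mp.Lie

set_option autoImplicit false

open scoped BigOperators Topology Matrix

namespace Pool.Agent.Work.MP_321bb7_mp

/-- adjoint action of the torus -/
noncomputable def adT (x : Fin 2 → ℝ) : Matrix (Fin 3) (Fin 3) ℂ →ₗ[ℂ] Matrix (Fin 3) (Fin 3) ℂ where
  toFun X := Matrix.diagonal (fun i => chr (om i) x) * X * Matrix.diagonal (fun i => star (chr (om i) x))
  map_add' := by intro X Y; rw [mul_add, add_mul]
  map_smul' := by intro c X; simp

lemma adT_apply (x : Fin 2 → ℝ) (X : Matrix (Fin 3) (Fin 3) ℂ) (i j : Fin 3) :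
    adT x X i j = chr (om i - om j) x * X i j := by
  change (Matrix.diagonal (fun i => chr (om i) x) * X * Matrix.diagonal (fun i => star (chr (om i) x))) i j = _
  rw [Matrix.mul_diagonal, Matrix.diagonal_mul, sub_eq_add_neg, chr_add_left, chr_neg_left]
  ring

lemma mem_rootSpace_su3 (α : Fin 2 → ℤ) (hα : α ≠ 0) (X : Matrix (Fin 3) (Fin 3) ℂ) :
    X ∈ su3.rootSpace α ↔ ∀ x, adT x X = chr α x • X := by
  have hinv : ∀ x : Fin 2 → ℝ, incl (tau3 x)⁻¹ = Matrix.diagonal (fun i => star (chr (om i) x)) := by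
    intro x
    rw [incl_inv, tau3_val, Matrix.star_eq_conjTranspose, Matrix.diagonal_conjTranspose]
    rfl
  have h0 : X ∈ su3.rootSpace α ↔ X ∈ su3.lieAlgC ∧ ∀ x : Fin 2 → ℝ, adT x X = chr α x • X := by
    refine (mem_rootSpace su3 α X).trans (and_congr_right (fun _ => forall_congr' (fun x => ?_)))
    change incl (tau3 x) * X * incl (tau3 x)⁻¹ = _ ↔ _
    rw [hinv]
    rfl
  rw [h0, mem_lieAlgC_su3]
  constructor
  · rintro ⟨-, h⟩
    exact h
  · intro h
    refine ⟨?_, h⟩
    obtain ⟨x, hx⟩ := exists_chr_ne_one hα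
    have hz : ∀ i, X i i = 0 := by
      intro i
      have h1 := congrFun (congrFun (h x) i) i
      rw [adT_apply, Matrix.smul_apply, smul_eq_mul, sub_self, chr_zero_left] at h1
      have h2 : (1 - chr α x) * X i i = 0 := by rw [sub_mul, h1, sub_self]
      rcases mul_eq_zero.1 h2 with h3 | h3
      · exact absurd (sub_eq_zero.1 h3).symm hx
      · exact h3
    simp [Matrix.trace, hz]

open Classical in
lemma finrank_rootSpace_su3 (α : Fin 2 → ℤ) (hα : α ≠ 0) :
    Module.finrank ℂ (su3.rootSpace α) =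
      (Finset.univ.filter (fun k : Fin 3 × Fin 3 => om k.1 - om k.2 = α)).card := by
  apply finrank_joint_eigenspace (Matrix.stdBasis ℂ (Fin 3) (Fin 3)) adT
    (fun k : Fin 3 × Fin 3 => om k.1 - om k.2) _ α (su3.rootSpace α) (mem_rootSpace_su3 α hα)
  intro x k
  ext i j
  rw [adT_apply, Matrix.smul_apply, smul_eq_mul, Matrix.stdBasis_eq_single, Matrix.single_apply]
  by_cases h : k.1 = i ∧ k.2 = j
  · rw [if_pos h, h.1, h.2]
  · rw [if_neg h]; simp

lemma rootSum_su3 (f : (Fin 2 → ℤ) → ℝ) :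
    su3.rootSum f = f (om 0 - om 1) + f (om 0 - om 2) + f (om 1 - om 0) + f (om 1 - om 2)
      + f (om 2 - om 0) + f (om 2 - om 1) := by
  classical
  have h1 : su3.rootSum f = ∑ᶠ α : Fin 2 → ℤ,
      ((Finset.univ.filter (fun k : Fin 3 × Fin 3 => om k.1 - om k.2 = α)).card : ℝ) *
        (if α = 0 then 0 else f α) := by
    unfold GaugeGroup.rootSum
    apply finsum_congr
    intro (α : Fin 2 → ℤ)
    have h2 : su3.rootMult α = if α = 0 then 0 else Module.finrank ℂ (su3.rootSpace α) := rfl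
    by_cases h : α = 0
    · rw [if_pos h, mul_zero]
      have : su3.rootMult α = 0 := by rw [h2, if_pos h]
      rw [this]; simp
    · rw [if_neg h]
      have : su3.rootMult α = (Finset.univ.filter (fun k : Fin 3 × Fin 3 => om k.1 - om k.2 = α)).card := by
        rw [h2, if_neg h, finrank_rootSpace_su3 α h]
      rw [this]
  rw [h1, finsum_card_fiber (fun k : Fin 3 × Fin 3 => om k.1 - om k.2), Fintype.sum_prod_type]
  simp only [Fin.sum_univ_three, sub_self, if_true]
  have hne : ∀ i j : Fin 3, i ≠ j → om i - om j ≠ 0 := by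
    intro i j hij
    rw [sub_ne_zero]
    revert i j
    decide
  rw [if_neg (hne 0 1 (by decide)), if_neg (hne 0 2 (by decide)), if_neg (hne 1 0 (by decide)),
    if_neg (hne 1 2 (by decide)), if_neg (hne 2 0 (by decide)), if_neg (hne 2 1 (by decide))]
  ring

end Pool.Agent.Work.MP_321bb7_mp
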