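import Mathlib
import Pool.Agent.Work.MP_321bb7_mp.Roots

set_option autoImplicit false

open scoped BigOperators Topology Matrix

namespace Pool.Agent.Work.MP_321bb7_mp

/-- the complex conjugate of the defining representation of `SU(3)` -/
noncomputable def phi3bar : SU3 →* Matrix (Fin 3) (Fin 3) ℂ where
  toFun g := (incl g).map (starRingEnd ℂ)
  map_one' := by
    rw [map_one]
    simp
  map_mul' a b := by
    rw [map_mul, Matrix.map_mul]

lemma continuous_phi3bar : Continuous phi3bar := by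
  change Continuous fun g : SU3 => (incl g).map (starRingEnd ℂ)
  exact (continuous_incl).matrix_map Complex.continuous_conj

lemma phi3_tau (x : Fin 2 → ℝ) : incl (tau3 x) = Matrix.diagonal (fun i => chr (om i) x) := rfl

lemma phi3bar_tau (x : Fin 2 → ℝ) : phi3bar (tau3 x) = Matrix.diagonal (fun i => chr (- om i) x) := by
  change (Matrix.diagonal (fun i => chr (om i) x)).map (starRingEnd ℂ) = _
  rw [Matrix.diagonal_map (by simp)]
  congr 1
  ext i
  rw [chr_neg_left]; rfl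

/-- The three-dimensional representation attached to a matrix-valued homomorphism. -/
noncomputable def rep3 (φ : SU3 →* Matrix (Fin 3) (Fin 3) ℂ) : Representation ℂ SU3 (Fin 3 → ℂ) where
  toFun g := Matrix.mulVecLin (φ g)
  map_one' := by rw [map_one]; exact Matrix.mulVecLin_one
  map_mul' a b := by rw [map_mul]; exact Matrix.mulVecLin_mul _ _

/-- The space of symmetric 3×3 matrices. -/
def Sym3 : Submodule ℂ (Matrix (Fin 3) (Fin 3) ℂ) where
  carrier := {X | Xᵀ = X}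
  add_mem' := by
    intro X Y hX hY
    change (X + Y)ᵀ = X + Y
    rw [Matrix.transpose_add, show Xᵀ = X from hX, show Yᵀ = Y from hY]
  zero_mem' := Matrix.transpose_zero
  smul_mem' := by
    intro c X hX
    change (c • X)ᵀ = c • X
    rw [Matrix.transpose_smul, show Xᵀ = X from hX]

/-- The action `X ↦ A X Aᵀ` on symmetric matrices. -/
noncomputable def symAct (A : Matrix (Fin 3) (Fin 3) ℂ) : Sym3 →ₗ[ℂ] Sym3 where
  toFun X := ⟨A * X.1 * Aᵀ, by
    change (A * X.1 * Aᵀ)ᵀ = A * X.1 * Aᵀ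
    rw [Matrix.transpose_mul, Matrix.transpose_mul, Matrix.transpose_transpose,
      show (X.1)ᵀ = X.1 from X.2, mul_assoc]⟩
  map_add' X Y := Subtype.ext (by
    change A * (X.1 + Y.1) * Aᵀ = A * X.1 * Aᵀ + A * Y.1 * Aᵀ
    rw [mul_add, add_mul])
  map_smul' c X := Subtype.ext (by
    change A * (c • X.1) * Aᵀ = c • (A * X.1 * Aᵀ)
    rw [Matrix.mul_smul, Matrix.smul_mul])

/-- The symmetric square of the three-dimensional representation attached to a matrix-valued
homomorphism: `g` acts on symmetric matrices by `X ↦ φ(g) X φ(g)ᵀ`. -/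
noncomputable def rep6 (φ : SU3 →* Matrix (Fin 3) (Fin 3) ℂ) : Representation ℂ SU3 Sym3 where
  toFun g := symAct (φ g)
  map_one' := by
    ext1 X
    apply Subtype.ext
    change φ 1 * X.1 * (φ 1)ᵀ = X.1
    rw [map_one, Matrix.transpose_one, one_mul, mul_one]
  map_mul' a b := by
    ext1 X
    apply Subtype.ext
    change φ (a * b) * X.1 * (φ (a * b))ᵀ = φ a * (φ b * X.1 * (φ b)ᵀ) * (φ a)ᵀ
    rw [map_mul, Matrix.transpose_mul]
    simp only [mul_assoc]

lemma cont_rep3 (φ : SU3 →* Matrix (Fin 3) (Fin 3) ℂ) (hφ : Continuous φ)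
    (ψ : Module.Dual ℂ (Fin 3 → ℂ)) (v : Fin 3 → ℂ) : Continuous fun g => ψ (rep3 φ g v) := by
  have h1 : Continuous ψ := LinearMap.continuous_of_finiteDimensional ψ
  apply h1.comp
  change Continuous fun g => (φ g).mulVec v
  exact hφ.matrix_mulVec continuous_const

lemma cont_rep6 (φ : SU3 →* Matrix (Fin 3) (Fin 3) ℂ) (hφ : Continuous φ)
    (ψ : Module.Dual ℂ Sym3) (v : Sym3) : Continuous fun g => ψ (rep6 φ g v) := by
  have h1 : Continuous ψ := LinearMap.continuous_of_finiteDimensional ψ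
  apply h1.comp
  apply Continuous.subtype_mk
  exact (hφ.matrix_mul continuous_const).matrix_mul hφ.matrix_transpose

/-- parametrisation of symmetric matrices -/
noncomputable def equivSym : Sym3 ≃ₗ[ℂ] (Fin 6 → ℂ) where
  toFun X := ![X.1 0 0, X.1 0 1, X.1 0 2, X.1 1 1, X.1 1 2, X.1 2 2]
  map_add' X Y := by
    ext i; fin_cases i <;> rfl
  map_smul' c X := by
    ext i; fin_cases i <;> rfl
  invFun a := ⟨!![a 0, a 1, a 2; a 1, a 3, a 4; a 2, a 4, a 5], by
    change Matrix.transpose _ = _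
    ext i j; fin_cases i <;> fin_cases j <;> rfl⟩
  left_inv X := by
    apply Subtype.ext
    have h : ∀ i j, X.1 j i = X.1 i j := fun i j => congrFun (congrFun X.2 i) j
    ext i j; fin_cases i <;> fin_cases j <;> first | rfl | exact h _ _
  right_inv a := by
    ext i; fin_cases i <;> rfl

/-- basis of symmetric matrices -/
noncomputable def basisSym : Module.Basis (Fin 6) ℂ Sym3 := Module.Basis.ofEquivFun equivSym

/-- weights of the symmetric square -/
def om6 (ω : Fin 3 → (Fin 2 → ℤ)) : Fin 6 → (Fin 2 → ℤ) :=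
  ![ω 0 + ω 0, ω 0 + ω 1, ω 0 + ω 2, ω 1 + ω 1, ω 1 + ω 2, ω 2 + ω 2]

lemma rep3_basis (φ : SU3 →* Matrix (Fin 3) (Fin 3) ℂ) (ω : Fin 3 → (Fin 2 → ℤ))
    (hφ : ∀ x, φ (tau3 x) = Matrix.diagonal (fun i => chr (ω i) x)) (x : Fin 2 → ℝ) (k : Fin 3) :
    rep3 φ (tau3 x) (Pi.basisFun ℂ (Fin 3) k) = chr (ω k) x • Pi.basisFun ℂ (Fin 3) k := by
  change (φ (tau3 x)).mulVec _ = _
  rw [hφ]
  ext i
  rw [Matrix.mulVec_diagonal, Pi.basisFun_apply, Pi.smul_apply, smul_eq_mul]
  by_cases h : i = k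
  · subst h; rfl
  · rw [Pi.single_eq_of_ne h, mul_zero, mul_zero]

lemma rep6_basis (φ : SU3 →* Matrix (Fin 3) (Fin 3) ℂ) (ω : Fin 3 → (Fin 2 → ℤ))
    (hφ : ∀ x, φ (tau3 x) = Matrix.diagonal (fun i => chr (ω i) x)) (x : Fin 2 → ℝ) (k : Fin 6) :
    rep6 φ (tau3 x) (basisSym k) = chr (om6 ω k) x • basisSym k := by
  apply Subtype.ext
  change φ (tau3 x) * (basisSym k).1 * (φ (tau3 x))ᵀ = chr (om6 ω k) x • (basisSym k).1
  rw [hφ, Matrix.diagonal_transpose]
  ext i j
  rw [Matrix.mul_diagonal, Matrix.diagonal_mul, Matrix.smul_apply, smul_eq_mul]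
  have hb : ∀ k, (basisSym k).1 = !![(Pi.single k (1:ℂ) : Fin 6 → ℂ) 0, (Pi.single k (1:ℂ) : Fin 6 → ℂ) 1, (Pi.single k (1:ℂ) : Fin 6 → ℂ) 2;
      (Pi.single k (1:ℂ) : Fin 6 → ℂ) 1, (Pi.single k (1:ℂ) : Fin 6 → ℂ) 3, (Pi.single k (1:ℂ) : Fin 6 → ℂ) 4;
      (Pi.single k (1:ℂ) : Fin 6 → ℂ) 2, (Pi.single k (1:ℂ) : Fin 6 → ℂ) 4, (Pi.single k (1:ℂ) : Fin 6 → ℂ) 5] := by
    intro k
    unfold basisSym
    rw [Module.Basis.coe_ofEquivFun]
    rfl
  rw [hb]
  fin_cases k <;> fin_cases i <;> fin_cases j <;>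
    simp [om6, chr_add_left] <;> ring

end Pool.Agent.Work.MP_321bb7_mp
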