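import Mathlib
import Pool.Agent.Work.MP_321bb7_mp.Reps

set_option autoImplicit false

open scoped BigOperators Topology Matrix

namespace Pool.Agent.Work.MP_321bb7_mp

/-- matter in the triplet or antitriplet -/
noncomputable def matter3 (φ : SU3 →* Matrix (Fin 3) (Fin 3) ℂ) (hφ : Continuous φ) (ρ : ℝ)
    (h0 : 0 < ρ) (h2 : ρ < 2) : Matter su3 where
  V := Fin 3 → ℂ
  R := rep3 φ
  cont := cont_rep3 φ hφ
  rch := ρ
  rch_pos := h0
  rch_lt := h2

/-- matter in the sextet or antisextet -/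
noncomputable def matter6 (φ : SU3 →* Matrix (Fin 3) (Fin 3) ℂ) (hφ : Continuous φ) (ρ : ℝ)
    (h0 : 0 < ρ) (h2 : ρ < 2) : Matter su3 where
  V := Sym3
  R := rep6 φ
  cont := cont_rep6 φ hφ
  rch := ρ
  rch_pos := h0
  rch_lt := h2

open Classical in
lemma mult_matter3 (φ : SU3 →* Matrix (Fin 3) (Fin 3) ℂ) (hφ : Continuous φ) (ρ : ℝ)
    (h0 : 0 < ρ) (h2 : ρ < 2) (ω : Fin 3 → (Fin 2 → ℤ))
    (hω : ∀ x, φ (tau3 x) = Matrix.diagonal (fun i => chr (ω i) x)) (w : Fin 2 → ℤ) :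
    (matter3 φ hφ ρ h0 h2).mult w = (Finset.univ.filter (fun k => ω k = w)).card :=
  finrank_joint_eigenspace (Pi.basisFun ℂ (Fin 3)) (fun x => rep3 φ (tau3 x)) ω
    (rep3_basis φ ω hω) w _ (fun v => mem_weightSpace (matter3 φ hφ ρ h0 h2) w v)

open Classical in
lemma mult_matter6 (φ : SU3 →* Matrix (Fin 3) (Fin 3) ℂ) (hφ : Continuous φ) (ρ : ℝ)
    (h0 : 0 < ρ) (h2 : ρ < 2) (ω : Fin 3 → (Fin 2 → ℤ))
    (hω : ∀ x, φ (tau3 x) = Matrix.diagonal (fun i => chr (ω i) x)) (w : Fin 2 → ℤ) :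
    (matter6 φ hφ ρ h0 h2).mult w = (Finset.univ.filter (fun k => om6 ω k = w)).card :=
  finrank_joint_eigenspace basisSym (fun x => rep6 φ (tau3 x)) (om6 ω)
    (rep6_basis φ ω hω) w _ (fun v => mem_weightSpace (matter6 φ hφ ρ h0 h2) w v)

lemma weightSum_matter3 (φ : SU3 →* Matrix (Fin 3) (Fin 3) ℂ) (hφ : Continuous φ) (ρ : ℝ)
    (h0 : 0 < ρ) (h2 : ρ < 2) (ω : Fin 3 → (Fin 2 → ℤ))
    (hω : ∀ x, φ (tau3 x) = Matrix.diagonal (fun i => chr (ω i) x)) (f : (Fin 2 → ℤ) → ℝ) :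
    (matter3 φ hφ ρ h0 h2).weightSum f = f (ω 0) + f (ω 1) + f (ω 2) := by
  classical
  have h : (matter3 φ hφ ρ h0 h2).weightSum f =
      ∑ᶠ w : Fin 2 → ℤ, ((Finset.univ.filter (fun k => ω k = w)).card : ℝ) * f w := by
    unfold Matter.weightSum
    apply finsum_congr
    intro (w : Fin 2 → ℤ)
    rw [mult_matter3 φ hφ ρ h0 h2 ω hω w]
  rw [h, finsum_card_fiber, Fin.sum_univ_three]

lemma weightSum_matter6 (φ : SU3 →* Matrix (Fin 3) (Fin 3) ℂ) (hφ : Continuous φ) (ρ : ℝ)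
    (h0 : 0 < ρ) (h2 : ρ < 2) (ω : Fin 3 → (Fin 2 → ℤ))
    (hω : ∀ x, φ (tau3 x) = Matrix.diagonal (fun i => chr (ω i) x)) (f : (Fin 2 → ℤ) → ℝ) :
    (matter6 φ hφ ρ h0 h2).weightSum f = f (ω 0 + ω 0) + f (ω 0 + ω 1) + f (ω 0 + ω 2)
      + f (ω 1 + ω 1) + f (ω 1 + ω 2) + f (ω 2 + ω 2) := by
  classical
  have h : (matter6 φ hφ ρ h0 h2).weightSum f =
      ∑ᶠ w : Fin 2 → ℤ, ((Finset.univ.filter (fun k => om6 ω k = w)).card : ℝ) * f w := by
    unfold Matter.weightSum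
    apply finsum_congr
    intro (w : Fin 2 → ℤ)
    rw [mult_matter6 φ hφ ρ h0 h2 ω hω w]
  rw [h, finsum_card_fiber, Fin.sum_univ_six]
  rfl

/-- The matter content `6 ⊕ 6̄ ⊕ 3 ⊕ 3̄` of the counterexample; sextets have `R`-charge `1 - w`,
triplets have `R`-charge `5 w - 2`. -/
noncomputable def content (w : ℝ) (h1 : 1 / 2 < w) (h2 : w < 5 / 9) : Fin 4 → Matter su3 :=
  ![matter6 incl continuous_incl (1 - w) (by linarith) (by linarith),
    matter6 phi3bar continuous_phi3bar (1 - w) (by linarith) (by linarith),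
    matter3 incl continuous_incl (5 * w - 2) (by linarith) (by linarith),
    matter3 phi3bar continuous_phi3bar (5 * w - 2) (by linarith) (by linarith)]

section
variable (w : ℝ) (h1 : 1 / 2 < w) (h2 : w < 5 / 9) (f : (Fin 2 → ℤ) → ℝ)

lemma ws0 : (content w h1 h2 0).weightSum f = f (om 0 + om 0) + f (om 0 + om 1) + f (om 0 + om 2)
      + f (om 1 + om 1) + f (om 1 + om 2) + f (om 2 + om 2) :=
  weightSum_matter6 incl continuous_incl _ _ _ om phi3_tau f
lemma ws1 : (content w h1 h2 1).weightSum f = f (-om 0 + -om 0) + f (-om 0 + -om 1) + f (-om 0 + -om 2)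
      + f (-om 1 + -om 1) + f (-om 1 + -om 2) + f (-om 2 + -om 2) :=
  weightSum_matter6 phi3bar continuous_phi3bar _ _ _ (fun i => -om i) phi3bar_tau f
lemma ws2 : (content w h1 h2 2).weightSum f = f (om 0) + f (om 1) + f (om 2) :=
  weightSum_matter3 incl continuous_incl _ _ _ om phi3_tau f
lemma ws3 : (content w h1 h2 3).weightSum f = f (-om 0) + f (-om 1) + f (-om 2) :=
  weightSum_matter3 phi3bar continuous_phi3bar _ _ _ (fun i => -om i) phi3bar_tau f
lemma rch0 : (content w h1 h2 0).rch = 1 - w := rfl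
lemma rch1 : (content w h1 h2 1).rch = 1 - w := rfl
lemma rch2 : (content w h1 h2 2).rch = 5 * w - 2 := rfl
lemma rch3 : (content w h1 h2 3).rch = 5 * w - 2 := rfl
end

lemma om00 : om 0 0 = 1 := rfl
lemma om01 : om 0 1 = 0 := rfl
lemma om10 : om 1 0 = 0 := rfl
lemma om11 : om 1 1 = 1 := rfl
lemma om20 : om 2 0 = -1 := rfl
lemma om21 : om 2 1 = -1 := rfl

/-- sum of `f` over the weights of `Sym²` -/
def A6 (ω : Fin 3 → (Fin 2 → ℤ)) (f : (Fin 2 → ℤ) → ℝ) : ℝ :=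
  f (ω 0 + ω 0) + f (ω 0 + ω 1) + f (ω 0 + ω 2) + f (ω 1 + ω 1) + f (ω 1 + ω 2) + f (ω 2 + ω 2)

/-- sum of `f` over three weights -/
def A3 (ω : Fin 3 → (Fin 2 → ℤ)) (f : (Fin 2 → ℤ) → ℝ) : ℝ := f (ω 0) + f (ω 1) + f (ω 2)

/-- opposite weights -/
def omb : Fin 3 → (Fin 2 → ℤ) := fun i => - om i

lemma omb00 : omb 0 0 = -1 := rfl
lemma omb01 : omb 0 1 = 0 := rfl
lemma omb10 : omb 1 0 = 0 := rfl
lemma omb11 : omb 1 1 = -1 := rfl
lemma omb20 : omb 2 0 = 1 := rfl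
lemma omb21 : omb 2 1 = 1 := rfl

lemma sum_content (w : ℝ) (h1 : 1 / 2 < w) (h2 : w < 5 / 9) (c : ℝ → ℝ) (f : (Fin 2 → ℤ) → ℝ) :
    ∑ j, c (content w h1 h2 j).rch * (content w h1 h2 j).weightSum f =
      c (1 - w) * (A6 om f + A6 omb f) + c (5 * w - 2) * (A3 om f + A3 omb f) := by
  rw [Fin.sum_univ_four, ws0, ws1, ws2, ws3, rch0, rch1, rch2, rch3]
  unfold A6 A3 omb
  ring

lemma sum_content' (w : ℝ) (h1 : 1 / 2 < w) (h2 : w < 5 / 9) (f : (Fin 2 → ℤ) → ℝ) :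
    ∑ j, (content w h1 h2 j).weightSum f = (A6 om f + A6 omb f) + (A3 om f + A3 omb f) := by
  have := sum_content w h1 h2 (fun _ => 1) f
  simpa using this

/-- sum over the roots -/
def AR (f : (Fin 2 → ℤ) → ℝ) : ℝ :=
  f (om 0 - om 1) + f (om 0 - om 2) + f (om 1 - om 0) + f (om 1 - om 2)
      + f (om 2 - om 0) + f (om 2 - om 1)

/-- The datum of the counterexample. -/
noncomputable def theory (w : ℝ) (h1 : 1 / 2 < w) (h2 : w < 5 / 9) : EHI where
  K := su3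
  N := 4
  M := content w h1 h2
  anomaly₃ := by
    intro (l : Fin 2) (m : Fin 2) (n : Fin 2)
    refine (sum_content' w h1 h2 (fun w => (w l : ℝ) * w m * w n)).trans ?_
    unfold A6 A3
    fin_cases l <;> fin_cases m <;> fin_cases n <;>
      simp [om00, om01, om10, om11, om20, om21, omb00, omb01, omb10, omb11, omb20, omb21] <;> norm_num
  anomaly₂ := by
    intro (l : Fin 2) (m : Fin 2)
    refine (congrArg₂ (· + ·) (sum_content w h1 h2 (fun r => r - 1) (fun w => (w l : ℝ) * w m))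
      (rootSum_su3 (fun w => (w l : ℝ) * w m))).trans ?_
    unfold A6 A3
    fin_cases l <;> fin_cases m <;>
      simp [om00, om01, om10, om11, om20, om21, omb00, omb01, omb10, omb11, omb20, omb21] <;> ring

lemma vartheta_neg (x : ℝ) : vartheta (-x) = vartheta x := by
  unfold vartheta
  by_cases h : Int.fract x = 0
  · have h2 : Int.fract (-x) = 0 := by
      rw [Int.fract_eq_iff] at h ⊢
      obtain ⟨_, _, z, hz⟩ := h
      exact ⟨le_refl _, by norm_num, -z, by push_cast; linarith⟩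
    rw [h, h2]
  · rw [Int.fract_neg h]; ring

lemma vartheta_nonneg (x : ℝ) : 0 ≤ vartheta x :=
  mul_nonneg (Int.fract_nonneg x) (by linarith [Int.fract_lt_one x])

lemma vartheta_le_one (x : ℝ) : vartheta x ≤ 1 := by
  unfold vartheta
  nlinarith [Int.fract_nonneg x, Int.fract_lt_one x]

lemma vartheta_zero : vartheta 0 = 0 := by simp [vartheta]

lemma vartheta_quarter : vartheta (1/4) = 3/16 := by
  unfold vartheta
  rw [Int.fract_eq_self.2 ⟨by norm_num, by norm_num⟩]; norm_num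

lemma vartheta_half : vartheta (1/2) = 1/4 := by
  unfold vartheta
  rw [Int.fract_eq_self.2 ⟨by norm_num, by norm_num⟩]; norm_num

lemma Lh_eq (w : ℝ) (h1 : 1 / 2 < w) (h2 : w < 5 / 9) (x : Fin 2 → ℝ) :
    (theory w h1 h2).Lh x =
      w * (vartheta (2 * x 0) + vartheta (x 0 + x 1) + vartheta (x 1) + vartheta (2 * x 1)
        + vartheta (x 0) + vartheta (2 * (x 0 + x 1)))
      + (3 - 5 * w) * (vartheta (x 0) + vartheta (x 1) + vartheta (x 0 + x 1))
      - (vartheta (x 0 - x 1) + vartheta (2 * x 0 + x 1) + vartheta (x 0 + 2 * x 1)) := by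
  have e : (theory w h1 h2).Lh x = 1 / 2 * ∑ j, (1 - (content w h1 h2 j).rch) *
      (content w h1 h2 j).weightSum (fun w : Fin 2 → ℤ => vartheta (pairing w x))
    - 1 / 2 * su3.rootSum (fun α : Fin 2 → ℤ => vartheta (pairing α x)) := rfl
  have e2 := sum_content w h1 h2 (fun r => 1 - r) (fun w : Fin 2 → ℤ => vartheta (pairing w x))
  have e3 := rootSum_su3 (fun w : Fin 2 → ℤ => vartheta (pairing w x))
  have e4 : (theory w h1 h2).Lh x = 1 / 2 * ((1 - (1 - w)) * (A6 om (fun w : Fin 2 → ℤ => vartheta (pairing w x)) + A6 omb (fun w : Fin 2 → ℤ => vartheta (pairing w x)))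
      + (1 - (5 * w - 2)) * (A3 om (fun w : Fin 2 → ℤ => vartheta (pairing w x)) + A3 omb (fun w : Fin 2 → ℤ => vartheta (pairing w x))))
    - 1 / 2 * AR (fun w : Fin 2 → ℤ => vartheta (pairing w x)) := by
    rw [e]; exact congrArg₂ (fun a b => 1 / 2 * a - 1 / 2 * b) e2 e3
  rw [e4]
  unfold A6 A3 AR omb
  simp only [sub_eq_add_neg (om _) (om _), pairing_add_left, pairing_neg_left, pairing_om0, pairing_om1, pairing_om2]
  have v1 : vartheta (x 0 + x 0) = vartheta (2 * x 0) := by congr 1; ring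
  have v2 : vartheta (x 0 + (-x 0 - x 1)) = vartheta (x 1) := by rw [← vartheta_neg]; congr 1; ring
  have v3 : vartheta (x 1 + x 1) = vartheta (2 * x 1) := by congr 1; ring
  have v4 : vartheta (x 1 + (-x 0 - x 1)) = vartheta (x 0) := by rw [← vartheta_neg]; congr 1; ring
  have v5 : vartheta (-x 0 - x 1 + (-x 0 - x 1)) = vartheta (2 * (x 0 + x 1)) := by rw [← vartheta_neg]; congr 1; ring
  have u1 : vartheta (-x 0 + -x 0) = vartheta (2 * x 0) := by rw [← vartheta_neg]; congr 1; ring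
  have u0 : vartheta (-x 0 + -x 1) = vartheta (x 0 + x 1) := by rw [← vartheta_neg]; congr 1; ring
  have u2 : vartheta (-x 0 + -(-x 0 - x 1)) = vartheta (x 1) := by congr 1; ring
  have u3 : vartheta (-x 1 + -x 1) = vartheta (2 * x 1) := by rw [← vartheta_neg]; congr 1; ring
  have u4 : vartheta (-x 1 + -(-x 0 - x 1)) = vartheta (x 0) := by congr 1; ring
  have u5 : vartheta (-(-x 0 - x 1) + -(-x 0 - x 1)) = vartheta (2 * (x 0 + x 1)) := by congr 1; ring
  have t2 : vartheta (-x 0 - x 1) = vartheta (x 0 + x 1) := by rw [← vartheta_neg]; congr 1; ring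
  have t5 : vartheta (-(-x 0 - x 1)) = vartheta (x 0 + x 1) := by congr 1; ring
  have r1 : vartheta (x 0 + -x 1) = vartheta (x 0 - x 1) := by congr 1
  have r2 : vartheta (x 0 + -(-x 0 - x 1)) = vartheta (2 * x 0 + x 1) := by congr 1; ring
  have r3 : vartheta (x 1 + -x 0) = vartheta (x 0 - x 1) := by rw [← vartheta_neg]; congr 1; ring
  have r4 : vartheta (x 1 + -(-x 0 - x 1)) = vartheta (x 0 + 2 * x 1) := by congr 1; ring
  have r5 : vartheta (-x 0 - x 1 + -x 0) = vartheta (2 * x 0 + x 1) := by rw [← vartheta_neg]; congr 1; ring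
  have r6 : vartheta (-x 0 - x 1 + -x 1) = vartheta (x 0 + 2 * x 1) := by rw [← vartheta_neg]; congr 1; ring
  rw [v1, v2, v3, v4, v5, u1, u0, u2, u3, u4, u5, t2, t5, r1, r2, r3, r4, r5, r6, vartheta_neg, vartheta_neg]
  ring

lemma Lh_neg (w : ℝ) (h1 : 1 / 2 < w) (h2 : w < 5 / 9) :
    (theory w h1 h2).Lh ![1/4, -1/4] < 0 := by
  rw [Lh_eq]
  have hx0 : (![1/4, -1/4] : Fin 2 → ℝ) 0 = 1/4 := rfl
  have hx1 : (![1/4, -1/4] : Fin 2 → ℝ) 1 = -1/4 := rfl
  rw [hx0, hx1, show (2 : ℝ) * (1/4) = 1/2 by norm_num, show (1/4 : ℝ) + -1/4 = 0 by norm_num,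
    show (2 : ℝ) * (-1/4) = -(1/2) by norm_num, show (2 : ℝ) * 0 = 0 by norm_num,
    show (1/4 : ℝ) - -1/4 = 1/2 by norm_num, show (1/2 : ℝ) + -1/4 = 1/4 by norm_num,
    show (1/4 : ℝ) + -(1/2) = -(1/4) by norm_num, show (-1/4 : ℝ) = -(1/4) by norm_num,
    vartheta_neg, vartheta_neg, vartheta_half, vartheta_quarter, vartheta_zero]
  linarith

lemma Lh_bdd (w : ℝ) (h1 : 1 / 2 < w) (h2 : w < 5 / 9) :
    BddBelow (Set.range (theory w h1 h2).Lh) := by
  refine ⟨-3, ?_⟩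
  rintro _ ⟨x, rfl⟩
  change Fin 2 → ℝ at x
  rw [Lh_eq]
  have hw1 : 0 ≤ w := by linarith
  have hw2 : 0 ≤ 3 - 5 * w := by linarith
  have n1 : 0 ≤ w * (vartheta (2 * x 0) + vartheta (x 0 + x 1) + vartheta (x 1) + vartheta (2 * x 1)
        + vartheta (x 0) + vartheta (2 * (x 0 + x 1))) := by
    apply mul_nonneg hw1
    have := vartheta_nonneg
    linarith [this (2 * x 0), this (x 0 + x 1), this (x 1), this (2 * x 1), this (x 0), this (2 * (x 0 + x 1))]
  have n2 : 0 ≤ (3 - 5 * w) * (vartheta (x 0) + vartheta (x 1) + vartheta (x 0 + x 1)) := by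
    apply mul_nonneg hw2
    have := vartheta_nonneg
    linarith [this (x 0 + x 1), this (x 1), this (x 0)]
  have := vartheta_le_one
  linarith [this (x 0 - x 1), this (2 * x 0 + x 1), this (x 0 + 2 * x 1)]

lemma LhMin_neg (w : ℝ) (h1 : 1 / 2 < w) (h2 : w < 5 / 9) : (theory w h1 h2).LhMin < 0 :=
  lt_of_le_of_lt (ciInf_le (Lh_bdd w h1 h2) ![1/4, -1/4]) (Lh_neg w h1 h2)

lemma finrank_Sym3 : Module.finrank ℂ Sym3 = 6 := by
  rw [equivSym.finrank_eq]; simp

lemma TrR_eq (w : ℝ) (h1 : 1 / 2 < w) (h2 : w < 5 / 9) : (theory w h1 h2).TrR = 18 * w - 10 := by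
  have e : (theory w h1 h2).TrR = (su3.dim : ℝ) + ∑ j : Fin 4, ((content w h1 h2 j).rch - 1) *
    (content w h1 h2 j).dim := rfl
  have d0 : (content w h1 h2 0).dim = 6 := finrank_Sym3
  have d1 : (content w h1 h2 1).dim = 6 := finrank_Sym3
  have d2 : (content w h1 h2 2).dim = 3 := Module.finrank_fin_fun ℂ
  have d3 : (content w h1 h2 3).dim = 3 := Module.finrank_fin_fun ℂ
  rw [e, Fin.sum_univ_four, d0, d1, d2, d3, rch0, rch1, rch2, rch3, dim_su3]
  push_cast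
  ring

open Classical in
lemma nonChiral (w : ℝ) (h1 : 1 / 2 < w) (h2 : w < 5 / 9) : (theory w h1 h2).NonChiral := by
  intro (v : Fin 2 → ℤ) _
  have key : ∀ v : Fin 2 → ℤ, ∑ j : Fin 4, (content w h1 h2 j).mult v =
      (Finset.univ.filter (fun k => om6 om k = v)).card + (Finset.univ.filter (fun k => om6 omb k = v)).card
      + (Finset.univ.filter (fun k => om k = v)).card + (Finset.univ.filter (fun k => omb k = v)).card := by
    intro v
    rw [Fin.sum_univ_four]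
    have m0 : (content w h1 h2 0).mult v = (Finset.univ.filter (fun k => om6 om k = v)).card :=
      mult_matter6 incl continuous_incl _ _ _ om phi3_tau v
    have m1 : (content w h1 h2 1).mult v = (Finset.univ.filter (fun k => om6 omb k = v)).card :=
      mult_matter6 phi3bar continuous_phi3bar _ _ _ omb phi3bar_tau v
    have m2 : (content w h1 h2 2).mult v = (Finset.univ.filter (fun k => om k = v)).card :=
      mult_matter3 incl continuous_incl _ _ _ om phi3_tau v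
    have m3 : (content w h1 h2 3).mult v = (Finset.univ.filter (fun k => omb k = v)).card :=
      mult_matter3 phi3bar continuous_phi3bar _ _ _ omb phi3bar_tau v
    rw [m0, m1, m2, m3]
  have e6 : ∀ k, om6 omb k = - om6 om k := by
    intro k
    fin_cases k <;> simp [om6, omb] <;> abel
  have f6 : ∀ v, (Finset.univ.filter (fun k => om6 omb k = v)).card = (Finset.univ.filter (fun k => om6 om k = -v)).card := by
    intro v
    congr 1
    apply Finset.filter_congr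
    intro k _
    rw [e6, neg_eq_iff_eq_neg]
  have f3 : ∀ v, (Finset.univ.filter (fun k => omb k = v)).card = (Finset.univ.filter (fun k => om k = -v)).card := by
    intro v
    congr 1
    apply Finset.filter_congr
    intro k _
    change - om k = v ↔ _
    rw [neg_eq_iff_eq_neg]
  refine (key v).trans ((key (-v)).trans ?_).symm
  rw [f6, f6, f3, f3, neg_neg]
  ring

lemma asymptFree (w : ℝ) (h1 : 1 / 2 < w) (h2 : w < 5 / 9) : (theory w h1 h2).AsymptoticallyFree := by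
  intro (l : Fin 2)
  have e1 := sum_content' w h1 h2 (fun w => (w l : ℝ) * w l)
  have e2 := rootSum_su3 (fun w => (w l : ℝ) * w l)
  refine lt_of_eq_of_lt e1 (lt_of_lt_of_eq ?_ (congrArg (fun t => 3 * t) e2).symm)
  unfold A6 A3
  fin_cases l <;>
    simp [om00, om01, om10, om11, om20, om21, omb00, omb01, omb10, omb11, omb20, omb21] <;> norm_num

open Classical in
lemma noZero (w : ℝ) (h1 : 1 / 2 < w) (h2 : w < 5 / 9) (j : Fin 4) :
    (content w h1 h2 j).mult (0 : Fin 2 → ℤ) = 0 := by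
  have hz : ∀ ω : Fin 3 → (Fin 2 → ℤ), (∀ k, om6 ω k ≠ 0) →
      (Finset.univ.filter (fun k => om6 ω k = (0 : Fin 2 → ℤ))).card = 0 := by
    intro ω h
    rw [Finset.card_eq_zero, Finset.filter_eq_empty_iff]
    intro k _; exact h k
  have hz' : ∀ ω : Fin 3 → (Fin 2 → ℤ), (∀ k, ω k ≠ 0) →
      (Finset.univ.filter (fun k => ω k = (0 : Fin 2 → ℤ))).card = 0 := by
    intro ω h
    rw [Finset.card_eq_zero, Finset.filter_eq_empty_iff]
    intro k _; exact h k
  fin_cases j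
  · exact (mult_matter6 incl continuous_incl _ _ _ om phi3_tau 0).trans (hz om (by decide))
  · exact (mult_matter6 phi3bar continuous_phi3bar _ _ _ omb phi3bar_tau 0).trans (hz omb (by decide))
  · exact (mult_matter3 incl continuous_incl _ _ _ om phi3_tau 0).trans (hz' om (by decide))
  · exact (mult_matter3 phi3bar continuous_phi3bar _ _ _ omb phi3bar_tau 0).trans (hz' omb (by decide))

lemma aMaximal (w : ℝ) (h1 : 1 / 2 < w) (h2 : w < 5 / 9) (hw : 369 * w ^ 2 - 450 * w + 134 = 0) :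
    (theory w h1 h2).AMaximal := by
  have d0 : (content w h1 h2 0).dim = 6 := finrank_Sym3
  have d1 : (content w h1 h2 1).dim = 6 := finrank_Sym3
  have d2 : (content w h1 h2 2).dim = 3 := Module.finrank_fin_fun ℂ
  have d3 : (content w h1 h2 3).dim = 3 := Module.finrank_fin_fun ℂ
  have htr : ∀ r' : Fin 4 → ℝ, (theory w h1 h2).trialA r' =
      3 / 32 * (3 * (8 + (r' 0 - 1) ^ 3 * 6 + (r' 1 - 1) ^ 3 * 6 + (r' 2 - 1) ^ 3 * 3 + (r' 3 - 1) ^ 3 * 3)
        - (8 + (r' 0 - 1) * 6 + (r' 1 - 1) * 6 + (r' 2 - 1) * 3 + (r' 3 - 1) * 3)) := by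
    intro r'
    have e : (theory w h1 h2).trialA r' = 3 / 32 * (3 * ((su3.dim : ℝ) + ∑ j : Fin 4, (r' j - 1) ^ 3 *
        (content w h1 h2 j).dim)
      - ((su3.dim : ℝ) + ∑ j : Fin 4, (r' j - 1) * (content w h1 h2 j).dim)) := rfl
    rw [e, Fin.sum_univ_four, Fin.sum_univ_four, d0, d1, d2, d3, dim_su3]
    push_cast
    ring
  have hch : (theory w h1 h2).charges = (![1 - w, 1 - w, 5 * w - 2, 5 * w - 2] : Fin 4 → ℝ) := by
    ext (j : Fin 4)
    fin_cases j <;> rfl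
  have han : ∀ r' : Fin 4 → ℝ, (theory w h1 h2).IsAnomalyFree r' →
      (r' 0 - 1) * 10 + (r' 1 - 1) * 10 + (r' 2 - 1) * 2 + (r' 3 - 1) * 2 + 12 = 0 := by
    intro r' h
    have h3 : ∑ j : Fin 4, (r' j - 1) * (content w h1 h2 j).weightSum (fun w : Fin 2 → ℤ => (w 0 : ℝ) * w 0)
      + su3.rootSum (fun α : Fin 2 → ℤ => (α 0 : ℝ) * α 0) = 0 := h (0 : Fin 2) (0 : Fin 2)
    have s0 := ws0 w h1 h2 (fun w : Fin 2 → ℤ => (w 0 : ℝ) * w 0)
    have s1 := ws1 w h1 h2 (fun w : Fin 2 → ℤ => (w 0 : ℝ) * w 0)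
    have s2 := ws2 w h1 h2 (fun w : Fin 2 → ℤ => (w 0 : ℝ) * w 0)
    have s3 := ws3 w h1 h2 (fun w : Fin 2 → ℤ => (w 0 : ℝ) * w 0)
    have s4 := rootSum_su3 (fun w : Fin 2 → ℤ => (w 0 : ℝ) * w 0)
    simp only [Pi.add_apply, Pi.neg_apply, Pi.sub_apply, om00, om10, om20] at s0 s1 s2 s3 s4
    norm_num at s0 s1 s2 s3 s4
    have h4 : (r' 0 - 1) * (content w h1 h2 0).weightSum (fun w : Fin 2 → ℤ => (w 0 : ℝ) * w 0)
      + (r' 1 - 1) * (content w h1 h2 1).weightSum (fun w : Fin 2 → ℤ => (w 0 : ℝ) * w 0)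
      + (r' 2 - 1) * (content w h1 h2 2).weightSum (fun w : Fin 2 → ℤ => (w 0 : ℝ) * w 0)
      + (r' 3 - 1) * (content w h1 h2 3).weightSum (fun w : Fin 2 → ℤ => (w 0 : ℝ) * w 0)
      + su3.rootSum (fun α : Fin 2 → ℤ => (α 0 : ℝ) * α 0) = 0 := by
      rw [Fin.sum_univ_four] at h3
      exact h3
    have h5 : (r' 0 - 1) * 10 + (r' 1 - 1) * 10 + (r' 2 - 1) * 2 + (r' 3 - 1) * 2 + 12 =
      (r' 0 - 1) * (content w h1 h2 0).weightSum (fun w : Fin 2 → ℤ => (w 0 : ℝ) * w 0)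
      + (r' 1 - 1) * (content w h1 h2 1).weightSum (fun w : Fin 2 → ℤ => (w 0 : ℝ) * w 0)
      + (r' 2 - 1) * (content w h1 h2 2).weightSum (fun w : Fin 2 → ℤ => (w 0 : ℝ) * w 0)
      + (r' 3 - 1) * (content w h1 h2 3).weightSum (fun w : Fin 2 → ℤ => (w 0 : ℝ) * w 0)
      + su3.rootSum (fun α : Fin 2 → ℤ => (α 0 : ℝ) * α 0) :=
      congr (congrArg (· + ·) (congr (congrArg (· + ·) (congr (congrArg (· + ·) (congr (congrArg (· + ·)
        (congrArg (fun t => (r' 0 - 1) * t) s0.symm)) (congrArg (fun t => (r' 1 - 1) * t) s1.symm)))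
        (congrArg (fun t => (r' 2 - 1) * t) s2.symm))) (congrArg (fun t => (r' 3 - 1) * t) s3.symm))) s4.symm
    rw [h5]; exact h4
  unfold EHI.AMaximal
  rw [hch]
  have hopen : ∀ᶠ r' in 𝓝 (![1 - w, 1 - w, 5 * w - 2, 5 * w - 2] : Fin 4 → ℝ), ∀ j, r' j < 1 := by
    rw [Filter.eventually_all]
    intro j
    have hc : Continuous (fun r' : Fin 4 → ℝ => r' j) := continuous_apply j
    have : (fun r' : Fin 4 → ℝ => r' j) ![1 - w, 1 - w, 5 * w - 2, 5 * w - 2] < 1 := by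
      fin_cases j <;> simp <;> linarith
    exact hc.continuousAt.eventually (gt_mem_nhds this)
  filter_upwards [hopen] with r' hr hA
  change Fin 4 → ℝ at r'
  replace hr : ∀ j : Fin 4, r' j < 1 := hr
  have hA' := han r' hA
  rw [htr, htr]
  have k0 : ((![1 - w, 1 - w, 5 * w - 2, 5 * w - 2] : Fin 4 → ℝ)) 0 = 1 - w := rfl
  have k1 : ((![1 - w, 1 - w, 5 * w - 2, 5 * w - 2] : Fin 4 → ℝ)) 1 = 1 - w := rfl
  have k2 : ((![1 - w, 1 - w, 5 * w - 2, 5 * w - 2] : Fin 4 → ℝ)) 2 = 5 * w - 2 := rfl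
  have k3 : ((![1 - w, 1 - w, 5 * w - 2, 5 * w - 2] : Fin 4 → ℝ)) 3 = 5 * w - 2 := rfl
  rw [k0, k1, k2, k3]
  have q : ∀ a b : ℝ, 0 ≤ a → 0 ≤ b → a ^ 3 ≥ b ^ 3 + 3 * b ^ 2 * (a - b) := by
    intro a b ha hb
    have : a ^ 3 - (b ^ 3 + 3 * b ^ 2 * (a - b)) = (a - b) ^ 2 * (a + 2 * b) := by ring
    have h3 : 0 ≤ (a - b) ^ 2 * (a + 2 * b) := by positivity
    linarith
  have hw0 : 0 ≤ w := by linarith
  have hf0 : 0 ≤ 3 - 5 * w := by linarith
  have q0 := q (1 - r' 0) w (by linarith [hr 0]) hw0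
  have q1 := q (1 - r' 1) w (by linarith [hr 1]) hw0
  have q2 := q (1 - r' 2) (3 - 5 * w) (by linarith [hr 2]) hf0
  have q3 := q (1 - r' 3) (3 - 5 * w) (by linarith [hr 3]) hf0
  have hk : 3 * (9 * (3 - 5 * w) ^ 2 - 1) * 10 = 6 * (9 * w ^ 2 - 1) * 2 := by
    linear_combination 18 * hw
  generalize r' 0 = r0 at *
  generalize r' 1 = r1 at *
  generalize r' 2 = r2 at *
  generalize r' 3 = r3 at *
  have key : 6 * (9 * w ^ 2 - 1) * ((1 - r0) - w) + 6 * (9 * w ^ 2 - 1) * ((1 - r1) - w)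
      + 3 * (9 * (3 - 5 * w) ^ 2 - 1) * ((1 - r2) - (3 - 5 * w))
      + 3 * (9 * (3 - 5 * w) ^ 2 - 1) * ((1 - r3) - (3 - 5 * w)) = 0 := by
    linear_combination (-(6 * (9 * w ^ 2 - 1) / 10)) * hA' + (1/10) * ((1 - r2) - (3 - 5 * w) + ((1 - r3) - (3 - 5 * w))) * hk
  nlinarith [q0, q1, q2, q3, key]

end Pool.Agent.Work.MP_321bb7_mp
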